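import Mathlib

/-!
# The Sato-Tate conjecture for almost all products of elliptic curves

Let `E_1, …, E_n` be elliptic curves without complex multiplication over a totally real number field
`K`, no two of them isogenous over an algebraic closure, and `x_k(v) = a_v(E_k) / √(N v) ∈ [-2, 2]` the
normalised traces of Frobenius (`0` at the bad primes).  The Sato-Tate conjecture for the abelian
variety `E_{k_1} × ⋯ × E_{k_r}`, with `ST = SU(2)^r`, says that `(x_{k_1}, …, x_{k_r})` is
equidistributed for the `r`-th power `μ ⊗ ⋯ ⊗ μ` of the Sato-Tate measure.  It is known for `r = 1`, and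
for `r = 2` (Harris, with Barnet-Lamb, Geraghty, Harris, Taylor; or Newton, Thorne), and for no product
with `r ≥ 3`.

We deduce from the case `r = 2` that, for all `r` and `ε > 0`, at each large scale `N` (primes of norm at
most `N`) the conjecture holds up to `ε` for all but `B n ^ (r - 1)` of the `n ^ r` products, with `B`
depending only on `r` and `ε`.  More generally the values may be in any compact metric space `X`
(conjugacy classes of the Sato-Tate groups of abelian varieties, of families of representations of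
odd weight, together with the Frobenius classes in extensions of `K`), with any law `μ`.  The step behind
it is a decoupling theorem: for every function `F` on the primes with `|F| ≤ 1` all but `B` of the `x_k`
are independent of `F` up to `ε`.
-/

set_option autoImplicit false

namespace Pool.Agent.Results.MP_c481b3_nt.AlmostAllProducts

open NumberField IsDedekindDomain Filter Topology MeasureTheory

section
variable {K : Type} [Field K] [NumberField K]

/-- The average of `g` over the primes of `K` of norm at most `N`. -/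
noncomputable def avg (g : HeightOneSpectrum (𝓞 K) → ℝ) (N : ℕ) : ℝ :=
  (∑ᶠ v : {v : HeightOneSpectrum (𝓞 K) // Ideal.absNorm v.asIdeal ≤ N}, g v.1) /
    (Nat.card {v : HeightOneSpectrum (𝓞 K) // Ideal.absNorm v.asIdeal ≤ N} : ℝ)

theorem finite_le (N : ℕ) :
    Finite {v : HeightOneSpectrum (𝓞 K) // Ideal.absNorm v.asIdeal ≤ N} := by
  have h : {I : Ideal (𝓞 K) | Ideal.absNorm I ≤ N}.Finite := Ideal.finite_setOfPred_absNorm_le N
  have h' : Finite {I : Ideal (𝓞 K) // Ideal.absNorm I ≤ N} := h
  exact Finite.of_injective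
    (fun v : {v : HeightOneSpectrum (𝓞 K) // Ideal.absNorm v.asIdeal ≤ N} =>
      (⟨v.1.asIdeal, v.2⟩ : {I : Ideal (𝓞 K) // Ideal.absNorm I ≤ N}))
    (fun v w hvw => Subtype.ext (HeightOneSpectrum.ext (congrArg Subtype.val hvw)))

theorem avg_add (g h : HeightOneSpectrum (𝓞 K) → ℝ) (N : ℕ) :
    avg (fun v => g v + h v) N = avg g N + avg h N := by
  have := finite_le (K := K) N
  unfold avg
  rw [finsum_add_distrib (Set.toFinite _) (Set.toFinite _), add_div]

theorem avg_mul (c : ℝ) (g : HeightOneSpectrum (𝓞 K) → ℝ) (N : ℕ) :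
    avg (fun v => c * g v) N = c * avg g N := by
  have := finite_le (K := K) N
  unfold avg
  rw [← mul_div_assoc, mul_finsum]

theorem avg_mono {g h : HeightOneSpectrum (𝓞 K) → ℝ} (hgh : ∀ v, g v ≤ h v) (N : ℕ) :
    avg g N ≤ avg h N := by
  have := finite_le (K := K) N
  unfold avg
  exact div_le_div_of_nonneg_right (finsum_le_finsum' (Set.toFinite _) (Set.toFinite _)
    (fun v => hgh v.1)) (Nat.cast_nonneg _)

theorem avg_zero (N : ℕ) : avg (fun _ : HeightOneSpectrum (𝓞 K) => (0 : ℝ)) N = 0 := by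
  unfold avg
  simp

theorem avg_sum {κ : Type} (T : Finset κ) (g : κ → HeightOneSpectrum (𝓞 K) → ℝ) (N : ℕ) :
    avg (fun v => ∑ k ∈ T, g k v) N = ∑ k ∈ T, avg (g k) N := by
  classical
  induction T using Finset.induction_on with
  | empty => simpa using avg_zero N
  | insert k T hk ih =>
    rw [Finset.sum_insert hk, ← ih, ← avg_add]
    congr 1
    funext v
    rw [Finset.sum_insert hk]

theorem exists_prime : Nonempty (HeightOneSpectrum (𝓞 K)) := by
  obtain ⟨M, hM⟩ := Ideal.exists_maximal (𝓞 K)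
  exact ⟨⟨M, hM.isPrime, Ring.ne_bot_of_isMaximal_of_not_isField hM
    (RingOfIntegers.not_isField K)⟩⟩

theorem avg_one : ∀ᶠ N in atTop, avg (fun _ : HeightOneSpectrum (𝓞 K) => (1 : ℝ)) N = 1 := by
  obtain ⟨v⟩ := exists_prime (K := K)
  filter_upwards [eventually_ge_atTop (Ideal.absNorm v.asIdeal)] with N hN
  have := finite_le (K := K) N
  have := Fintype.ofFinite {v : HeightOneSpectrum (𝓞 K) // Ideal.absNorm v.asIdeal ≤ N}
  have hne : Nonempty {v : HeightOneSpectrum (𝓞 K) // Ideal.absNorm v.asIdeal ≤ N} :=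
    ⟨⟨v, hN⟩⟩
  unfold avg
  rw [finsum_eq_sum_of_fintype, Finset.sum_const, nsmul_eq_mul, mul_one, Finset.card_univ,
    Nat.card_eq_fintype_card]
  exact div_self (Nat.cast_ne_zero.2 Fintype.card_ne_zero)

theorem avg_const {N : ℕ} (h1 : avg (fun _ : HeightOneSpectrum (𝓞 K) => (1 : ℝ)) N = 1)
    (c : ℝ) : avg (fun _ : HeightOneSpectrum (𝓞 K) => c) N = c := by
  have := avg_mul (K := K) c (fun _ => 1) N
  simp only [mul_one, h1] at this
  exact this

theorem avg_sub (g h : HeightOneSpectrum (𝓞 K) → ℝ) (N : ℕ) :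
    avg (fun v => g v - h v) N = avg g N - avg h N := by
  have h1 := avg_add g (fun v => (-1) * h v) N
  rw [avg_mul] at h1
  have e : (fun v => g v + -1 * h v) = fun v => g v - h v := funext fun v => by ring
  rw [e] at h1
  rw [h1]
  ring

theorem abs_avg_le {N : ℕ} (h1 : avg (fun _ : HeightOneSpectrum (𝓞 K) => (1 : ℝ)) N = 1)
    {g : HeightOneSpectrum (𝓞 K) → ℝ} {c : ℝ} (hg : ∀ v, |g v| ≤ c) : |avg g N| ≤ c := by
  rw [abs_le]
  constructor
  · have := avg_mono (g := fun _ : HeightOneSpectrum (𝓞 K) => -c) (h := g)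
      (fun v => (abs_le.1 (hg v)).1) N
    rwa [avg_const h1] at this
  · have := avg_mono (g := g) (h := fun _ : HeightOneSpectrum (𝓞 K) => c)
      (fun v => (abs_le.1 (hg v)).2) N
    rwa [avg_const h1] at this

/-! ### Bessel's inequality at one scale -/

theorem bessel {N n : ℕ} (h1 : avg (fun _ : HeightOneSpectrum (𝓞 K) => (1 : ℝ)) N = 1)
    {F : HeightOneSpectrum (𝓞 K) → ℝ} (hF : ∀ v, |F v| ≤ 1)
    {h : Fin n → HeightOneSpectrum (𝓞 K) → ℝ} (hh : ∀ k v, |h k v| ≤ 1) {τ : ℝ}
    (hτ : 0 ≤ τ) (hn : n * τ ≤ 1)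
    (hort : ∀ k l, k ≠ l → |avg (fun v => h k v * h l v) N| ≤ τ) :
    ∑ k, (avg (fun v => F v * h k v) N) ^ 2 ≤ 2 := by
  set a : Fin n → ℝ := fun k => avg (fun v => F v * h k v) N with ha
  set G : HeightOneSpectrum (𝓞 K) → ℝ := fun v => ∑ k, a k * h k v with hG
  have hFG : avg (fun v => F v * G v) N = ∑ k, a k ^ 2 := by
    have e : (fun v => F v * G v) = fun v => ∑ k, a k * (F v * h k v) := funext fun v => by
      rw [hG, Finset.mul_sum]
      exact Finset.sum_congr rfl fun k _ => by ring
    rw [e, avg_sum]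
    refine Finset.sum_congr rfl fun k _ => ?_
    rw [avg_mul, sq]
  have hGG : avg (fun v => G v * G v) N ≤ 2 * ∑ k, a k ^ 2 := by
    have e : (fun v => G v * G v) = fun v => ∑ k, ∑ l, (a k * a l) * (h k v * h l v) :=
      funext fun v => by
        rw [hG, Finset.sum_mul_sum]
        exact Finset.sum_congr rfl fun k _ => Finset.sum_congr rfl fun l _ => by ring
    rw [e, avg_sum]
    have e2 : ∀ k, avg (fun v => ∑ l, (a k * a l) * (h k v * h l v)) N =
        ∑ l, (a k * a l) * avg (fun v => h k v * h l v) N := fun k => by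
      rw [avg_sum]
      exact Finset.sum_congr rfl fun l _ => avg_mul _ _ _
    simp_rw [e2]
    have hb : ∀ k l, (a k * a l) * avg (fun v => h k v * h l v) N ≤
        (if k = l then a k ^ 2 else 0) + τ * ((a k ^ 2 + a l ^ 2) / 2) := by
      intro k l
      by_cases hkl : k = l
      · subst hkl
        rw [if_pos rfl]
        have h2 : |avg (fun v => h k v * h k v) N| ≤ 1 := abs_avg_le h1 fun v => by
          rw [abs_mul]
          exact mul_le_one₀ (hh k v) (abs_nonneg _) (hh k v)
        have h3 := (abs_le.1 h2).2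
        nlinarith [mul_self_nonneg (a k), sq_nonneg (a k)]
      · rw [if_neg hkl, zero_add]
        have h2 := hort k l hkl
        calc (a k * a l) * avg (fun v => h k v * h l v) N
            ≤ |(a k * a l) * avg (fun v => h k v * h l v) N| := le_abs_self _
          _ = |a k * a l| * |avg (fun v => h k v * h l v) N| := abs_mul _ _
          _ ≤ ((a k ^ 2 + a l ^ 2) / 2) * τ := by
            refine mul_le_mul ?_ h2 (abs_nonneg _) (by positivity)
            rw [abs_mul]
            nlinarith [sq_nonneg (|a k| - |a l|), sq_abs (a k), sq_abs (a l)]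
          _ = τ * ((a k ^ 2 + a l ^ 2) / 2) := mul_comm _ _
    calc ∑ k, ∑ l, (a k * a l) * avg (fun v => h k v * h l v) N
        ≤ ∑ k, ∑ l, ((if k = l then a k ^ 2 else 0) + τ * ((a k ^ 2 + a l ^ 2) / 2)) :=
          Finset.sum_le_sum fun k _ => Finset.sum_le_sum fun l _ => hb k l
      _ = ∑ k, a k ^ 2 + n * τ * ∑ k, a k ^ 2 := by
          simp only [Finset.sum_add_distrib, Finset.sum_ite_eq, Finset.mem_univ, if_true,
            ← Finset.mul_sum, ← Finset.sum_div, Finset.sum_const, Finset.card_univ,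
            Fintype.card_fin, nsmul_eq_mul]
          ring
      _ ≤ 2 * ∑ k, a k ^ 2 := by
          have : 0 ≤ ∑ k, a k ^ 2 := Finset.sum_nonneg fun k _ => sq_nonneg _
          nlinarith
  have hpos : 0 ≤ avg (fun v => (F v - 1 / 2 * G v) ^ 2) N := by
    have := avg_mono (g := fun _ : HeightOneSpectrum (𝓞 K) => (0 : ℝ))
      (h := fun v => (F v - 1 / 2 * G v) ^ 2) (fun v => sq_nonneg _) N
    rwa [avg_zero] at this
  have hexp : avg (fun v => (F v - 1 / 2 * G v) ^ 2) N =
      avg (fun v => F v * F v) N - avg (fun v => F v * G v) N +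
        1 / 4 * avg (fun v => G v * G v) N := by
    rw [← avg_sub, ← avg_mul, ← avg_add]
    congr 1
    funext v
    ring
  have hFF : avg (fun v => F v * F v) N ≤ 1 := by
    have : |avg (fun v => F v * F v) N| ≤ 1 := abs_avg_le h1 fun v => by
      rw [abs_mul]
      exact mul_le_one₀ (hF v) (abs_nonneg _) (hF v)
    exact (abs_le.1 this).2
  rw [hexp, hFG] at hpos
  linarith

/-- few large coefficients -/
theorem card_large {N n : ℕ} (h1 : avg (fun _ : HeightOneSpectrum (𝓞 K) => (1 : ℝ)) N = 1)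
    {F : HeightOneSpectrum (𝓞 K) → ℝ} (hF : ∀ v, |F v| ≤ 1)
    {h : Fin n → HeightOneSpectrum (𝓞 K) → ℝ} (hh : ∀ k v, |h k v| ≤ 1) {τ : ℝ}
    (hτ : 0 ≤ τ) (hn : n * τ ≤ 1)
    (hort : ∀ k l, k ≠ l → |avg (fun v => h k v * h l v) N| ≤ τ) {η : ℝ} (hη : 0 < η)
    (T : Finset (Fin n)) (hT : ∀ k ∈ T, η < |avg (fun v => F v * h k v) N|) :
    T.card ≤ ⌊2 / η ^ 2⌋₊ := by
  have hb := bessel h1 hF hh hτ hn hort
  have h2 : ∑ k ∈ T, η ^ 2 ≤ ∑ k, (avg (fun v => F v * h k v) N) ^ 2 := by
    refine le_trans (Finset.sum_le_sum fun k hk => ?_)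
      (Finset.sum_le_sum_of_subset_of_nonneg (Finset.subset_univ T) fun k _ _ => sq_nonneg _)
    rw [← sq_abs (avg (fun v => F v * h k v) N)]
    exact pow_le_pow_left₀ hη.le (hT k hk).le 2
  rw [Finset.sum_const, nsmul_eq_mul] at h2
  refine Nat.le_floor ?_
  rw [le_div_iff₀ (by positivity)]
  linarith

end


/-! ### partitions of unity -/

/-- A finite partition of unity of `X` by continuous functions with small supports. -/
structure Partition (X : Type) [MetricSpace X] (δ : ℝ) where
  ι : Type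
  fin : Fintype ι
  φ : ι → X → ℝ
  c : ι → X
  cont : ∀ m, Continuous (φ m)
  nonneg : ∀ m t, 0 ≤ φ m t
  sum_eq : ∀ t, ∑ m, φ m t = 1
  supp : ∀ m t, φ m t ≠ 0 → dist t (c m) ≤ δ

attribute [instance] Partition.fin

theorem exists_partition (X : Type) [MetricSpace X] [CompactSpace X] {δ : ℝ} (hδ : 0 < δ) :
    Nonempty (Partition X δ) := by
  obtain ⟨s, hs⟩ := finite_cover_balls_of_compact (isCompact_univ (X := X)) hδ
  obtain ⟨-, hfin, hcov⟩ := hs
  have hfin' := hfin.fintype
  set w : s → X → ℝ := fun m t => max 0 (δ - dist t m) with hw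
  have hwc : ∀ m, Continuous (w m) := fun m => by
    rw [hw]; fun_prop
  have hw0 : ∀ m t, 0 ≤ w m t := fun m t => le_max_left _ _
  have hpos : ∀ t, 0 < ∑ m, w m t := by
    intro t
    have ht := hcov (Set.mem_univ t)
    simp only [Set.mem_iUnion, Metric.mem_ball, exists_prop] at ht
    obtain ⟨m, hm, hd⟩ := ht
    refine Finset.sum_pos' (fun m _ => hw0 m t) ⟨⟨m, hm⟩, Finset.mem_univ _, ?_⟩
    rw [hw]
    exact lt_max_of_lt_right (by linarith)
  refine ⟨{
    ι := s
    fin := hfin'
    φ := fun m t => w m t / ∑ m', w m' t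
    c := fun m => m
    cont := fun m => (hwc m).div (continuous_finsetSum _ fun m' _ => hwc m')
      (fun t => (hpos t).ne')
    nonneg := fun m t => div_nonneg (hw0 m t) (hpos t).le
    sum_eq := fun t => by
      rw [← Finset.sum_div]
      exact div_self (hpos t).ne'
    supp := fun m t h => by
      by_contra hd
      push Not at hd
      apply h
      have : w m t = 0 := by
        rw [hw]
        exact max_eq_left (by linarith)
      simp only [this, zero_div] }⟩

theorem Partition.le_one {X : Type} [MetricSpace X] {δ : ℝ} (P : Partition X δ) (m : P.ι) (t : X) :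
    P.φ m t ≤ 1 := by
  rw [← P.sum_eq t]
  exact Finset.single_le_sum (f := fun m => P.φ m t) (fun m _ => P.nonneg m t)
    (Finset.mem_univ m)

/-! ### the pairs and the decoupling of one member -/

section
variable {K : Type} [Field K] [NumberField K]

/-- The pairs `(x i, x j)`, `i ≠ j`, are equidistributed for `μ ⊗ μ`. -/
def PairsEquidistributed {X ι : Type} [TopologicalSpace X] [MeasurableSpace X] (μ : Measure X)
    (x : ι → HeightOneSpectrum (𝓞 K) → X) : Prop :=
  ∀ i j : ι, i ≠ j → ∀ f g : X → ℝ, Continuous f → Continuous g →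
    Tendsto (avg fun v => f (x i v) * g (x j v)) atTop (𝓝 ((∫ t, f t ∂μ) * ∫ t, g t ∂μ))

/-- At the scale `N` the joint distribution of the coordinates of `y` is within `ε` of the product
measure: for all functions `f` with Lipschitz constant `1`. -/
def Close {X : Type} [MetricSpace X] [MeasurableSpace X] {r : ℕ} (μ : Measure X)
    (y : HeightOneSpectrum (𝓞 K) → Fin r → X) (ε : ℝ) (N : ℕ) : Prop :=
  ∀ f : (Fin r → X) → ℝ, LipschitzWith 1 f →
    |avg (fun v => f (y v)) N - ∫ z, f z ∂(Measure.pi fun _ => μ)| ≤ ε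

variable {X : Type} [MetricSpace X] [CompactSpace X] [MeasurableSpace X] [BorelSpace X]
  {μ : Measure X} [IsProbabilityMeasure μ]

theorem integrable_cont {f : X → ℝ} (hf : Continuous f) : Integrable f μ := by
  obtain ⟨C, hC⟩ := (isCompact_univ (X := X)).exists_bound_of_continuousOn hf.continuousOn
  exact Integrable.of_bound hf.aestronglyMeasurable C
    (Eventually.of_forall fun t => hC t (Set.mem_univ t))

omit [CompactSpace X] [BorelSpace X] in
/-- The centred functions are nearly orthogonal at all large scales. -/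
theorem near_orth {n : ℕ} {x : Fin n → HeightOneSpectrum (𝓞 K) → X}
    (hx : PairsEquidistributed μ x) {φ : X → ℝ} (hφ : Continuous φ) {τ : ℝ} (hτ : 0 < τ) :
    ∀ᶠ N in atTop, ∀ k l : Fin n, k ≠ l →
      |avg (fun v => (φ (x k v) - ∫ t, φ t ∂μ) * (φ (x l v) - ∫ t, φ t ∂μ)) N| ≤ τ := by
  set p := ∫ t, φ t ∂μ with hp
  refine eventually_all.2 fun k => eventually_all.2 fun l => ?_
  by_cases hkl : k = l
  · exact Eventually.of_forall fun N h => absurd hkl h
  have h1 := hx k l hkl φ φ hφ hφ
  have h2 := hx k l hkl φ (fun _ => 1) hφ continuous_const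
  have h3 := hx k l hkl (fun _ => 1) φ continuous_const hφ
  have h4 := hx k l hkl (fun _ => 1) (fun _ => 1) continuous_const continuous_const
  simp only [mul_one, one_mul, integral_const, probReal_univ, smul_eq_mul, ← hp] at h1 h2 h3 h4
  have h5 : Tendsto (fun N => avg (fun v => φ (x k v) * φ (x l v)) N +
      ((-p) * avg (fun v => φ (x k v)) N + ((-p) * avg (fun v => φ (x l v)) N +
        (p * p) * avg (fun _ : HeightOneSpectrum (𝓞 K) => (1 : ℝ)) N))) atTop
      (𝓝 (p * p + ((-p) * p + ((-p) * p + (p * p) * 1)))) :=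
    h1.add ((h2.const_mul _).add ((h3.const_mul _).add (h4.const_mul _)))
  have h6 : p * p + ((-p) * p + ((-p) * p + (p * p) * 1)) = 0 := by ring
  rw [h6] at h5
  have h7 : ∀ N, avg (fun v => (φ (x k v) - p) * (φ (x l v) - p)) N =
      avg (fun v => φ (x k v) * φ (x l v)) N +
      ((-p) * avg (fun v => φ (x k v)) N + ((-p) * avg (fun v => φ (x l v)) N +
        (p * p) * avg (fun _ : HeightOneSpectrum (𝓞 K) => (1 : ℝ)) N)) := fun N => by
    rw [← avg_mul, ← avg_mul, ← avg_mul, ← avg_add, ← avg_add, ← avg_add]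
    congr 1
    funext v
    ring
  rw [Metric.tendsto_atTop] at h5
  obtain ⟨N₀, hN₀⟩ := h5 τ hτ
  filter_upwards [eventually_ge_atTop N₀] with N hN _
  have := hN₀ N hN
  rw [Real.dist_eq, sub_zero, ← h7] at this
  exact this.le

theorem Partition.p_mem {δ : ℝ} (P : Partition X δ) (m : P.ι) :
    0 ≤ ∫ t, P.φ m t ∂μ ∧ ∫ t, P.φ m t ∂μ ≤ 1 := by
  constructor
  · exact integral_nonneg fun t => P.nonneg m t
  · calc ∫ t, P.φ m t ∂μ ≤ ∫ _t, (1 : ℝ) ∂μ :=
        integral_mono (integrable_cont (P.cont m)) (integrable_const 1) fun t => P.le_one m t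
      _ = 1 := by simp

theorem Partition.abs_sub_le {δ : ℝ} (P : Partition X δ) (m : P.ι) (t : X) :
    |P.φ m t - ∫ t, P.φ m t ∂μ| ≤ 1 := by
  have h1 := P.nonneg m t
  have h2 := P.le_one m t
  have h3 := P.p_mem (μ := μ) m
  exact abs_le.2 ⟨by linarith [h3.2], by linarith [h3.1]⟩

/-! ### counting bad tuples -/

/-- the product of the first factors -/
noncomputable def F {δ : ℝ} (P : Partition X δ) {r n : ℕ} (x : Fin n → HeightOneSpectrum (𝓞 K) → X)
    (t : Fin (r + 1)) (m : Fin (r + 1) → P.ι) (i : Fin (r + 1) → Fin n)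
    (v : HeightOneSpectrum (𝓞 K)) : ℝ :=
  ∏ l ∈ Finset.univ.filter (· < t), P.φ (m l) (x (i l) v)

omit [NumberField K] [CompactSpace X] [MeasurableSpace X] [BorelSpace X] in
theorem abs_F_le {δ : ℝ} (P : Partition X δ) {r n : ℕ} (x : Fin n → HeightOneSpectrum (𝓞 K) → X)
    (t : Fin (r + 1)) (m : Fin (r + 1) → P.ι) (i : Fin (r + 1) → Fin n)
    (v : HeightOneSpectrum (𝓞 K)) : |F P x t m i v| ≤ 1 := by
  unfold F
  rw [abs_of_nonneg (Finset.prod_nonneg fun l _ => P.nonneg _ _)]
  exact Finset.prod_le_one (fun l _ => P.nonneg _ _) fun l _ => P.le_one _ _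

theorem card_bad {δ : ℝ} (P : Partition X δ) {r n N : ℕ}
    {x : Fin n → HeightOneSpectrum (𝓞 K) → X} {τ : ℝ} (hτ : 0 ≤ τ) (hn : n * τ ≤ 1)
    (h1 : avg (fun _ : HeightOneSpectrum (𝓞 K) => (1 : ℝ)) N = 1)
    (hort : ∀ (m : P.ι) (k l : Fin n), k ≠ l →
      |avg (fun v => (P.φ m (x k v) - ∫ t, P.φ m t ∂μ) * (P.φ m (x l v) - ∫ t, P.φ m t ∂μ)) N| ≤ τ)
    {η : ℝ} (hη : 0 < η) (t : Fin (r + 1)) (m : Fin (r + 1) → P.ι)
    (T : Finset (Fin (r + 1) → Fin n))
    (hT : ∀ i ∈ T, η < |avg (fun v => F P x t m i v *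
      (P.φ (m t) (x (i t) v) - ∫ s, P.φ (m t) s ∂μ)) N|) :
    T.card ≤ ⌊2 / η ^ 2⌋₊ * n ^ r := by
  classical
  have h2 := Finset.card_le_mul_card_image (f := fun i : Fin (r + 1) → Fin n =>
    fun l : Fin r => i (t.succAbove l)) T ⌊2 / η ^ 2⌋₊ ?_
  · refine h2.trans (Nat.mul_le_mul_left _ ?_)
    calc (T.image fun i : Fin (r + 1) → Fin n => fun l : Fin r => i (t.succAbove l)).card
        ≤ (Finset.univ : Finset (Fin r → Fin n)).card := Finset.card_le_card (Finset.subset_univ _)
      _ = n ^ r := by simp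
  · intro b hb
    obtain ⟨i₀, hi₀, hb₀⟩ := Finset.mem_image.1 hb
    set S := {i ∈ T | (fun l : Fin r => i (t.succAbove l)) = b} with hS
    have hoff : ∀ i ∈ S, ∀ l, l ≠ t → i l = i₀ l := by
      intro i hi l hl
      obtain ⟨l', rfl⟩ := Fin.exists_succAbove_eq hl
      have e1 := (Finset.mem_filter.1 hi).2
      have := congrFun (e1.trans hb₀.symm) l'
      exact this
    have hFeq : ∀ i ∈ S, F P x t m i = F P x t m i₀ := by
      intro i hi
      funext v
      unfold F
      refine Finset.prod_congr rfl fun l hl => ?_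
      rw [hoff i hi l (Finset.mem_filter.1 hl).2.ne]
    have hinj : Set.InjOn (fun i : Fin (r + 1) → Fin n => i t) S := by
      intro i hi i' hi' he
      funext l
      by_cases hl : l = t
      · subst hl; exact he
      · rw [hoff i hi l hl, hoff i' hi' l hl]
    rw [← Finset.card_image_of_injOn hinj]
    refine card_large h1 (abs_F_le P x t m i₀)
      (h := fun k v => P.φ (m t) (x k v) - ∫ s, P.φ (m t) s ∂μ)
      (fun k v => P.abs_sub_le (m t) (x k v)) hτ hn (fun k l hkl => hort (m t) k l hkl) hη _ ?_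
    intro k hk
    obtain ⟨i, hi, rfl⟩ := Finset.mem_image.1 hk
    have := hT i (Finset.mem_filter.1 hi).1
    rw [hFeq i hi] at this
    exact this

/-! ### telescoping -/

theorem telescope {δ : ℝ} (P : Partition X δ) {r n N : ℕ}
    {x : Fin n → HeightOneSpectrum (𝓞 K) → X}
    (h1 : avg (fun _ : HeightOneSpectrum (𝓞 K) => (1 : ℝ)) N = 1)
    {η : ℝ} (m : Fin (r + 1) → P.ι) (i : Fin (r + 1) → Fin n)
    (hgood : ∀ t, |avg (fun v => F P x t m i v *
      (P.φ (m t) (x (i t) v) - ∫ s, P.φ (m t) s ∂μ)) N| ≤ η) :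
    |avg (fun v => ∏ l, P.φ (m l) (x (i l) v)) N - ∏ l, ∫ s, P.φ (m l) s ∂μ| ≤ (r + 1) * η := by
  set p : Fin (r + 1) → ℝ := fun l => ∫ s, P.φ (m l) s ∂μ with hp
  set B : ℕ → HeightOneSpectrum (𝓞 K) → ℝ := fun t v =>
    ∏ l : Fin (r + 1), if (l : ℕ) < t then P.φ (m l) (x (i l) v) else p l with hB
  have hstep : ∀ t : Fin (r + 1), |avg (B (t + 1)) N - avg (B t) N| ≤ η := by
    intro t
    have hdiff : ∀ v, B (t + 1) v - B t v =
        (∏ l ∈ Finset.univ.filter (fun l => t < l), p l) *
          (F P x t m i v * (P.φ (m t) (x (i t) v) - p t)) := by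
      intro v
      have hs : (Finset.univ : Finset (Fin (r + 1))) =
          (Finset.univ.filter (· < t)) ∪ ({t} ∪ Finset.univ.filter (fun l => t < l)) := by
        ext l
        simp only [Finset.mem_univ, Finset.mem_union, Finset.mem_filter, true_and,
          Finset.mem_singleton, true_iff]
        rcases lt_trichotomy l t with h | h | h
        · exact Or.inl h
        · exact Or.inr (Or.inl h)
        · exact Or.inr (Or.inr h)
      have hd1 : Disjoint (Finset.univ.filter (· < t))
          ({t} ∪ Finset.univ.filter (fun l => t < l)) := by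
        rw [Finset.disjoint_left]
        intro l hl hl'
        simp only [Finset.mem_union, Finset.mem_filter, Finset.mem_univ, true_and,
          Finset.mem_singleton] at hl hl'
        rcases hl' with h | h
        · exact absurd hl (by rw [h]; exact lt_irrefl _)
        · exact absurd (hl.trans h) (lt_irrefl _)
      have hd2 : Disjoint ({t} : Finset (Fin (r + 1))) (Finset.univ.filter (fun l => t < l)) := by
        rw [Finset.disjoint_singleton_left]
        simp
      have key : ∀ s : ℕ, (s = t ∨ s = t + 1) → B s v = F P x t m i v *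
          ((if (t : ℕ) < s then P.φ (m t) (x (i t) v) else p t) *
            ∏ l ∈ Finset.univ.filter (fun l => t < l), p l) := by
        intro s hs'
        simp only [hB]
        conv_lhs => rw [hs, Finset.prod_union hd1, Finset.prod_union hd2, Finset.prod_singleton]
        congr 1
        · unfold F
          refine Finset.prod_congr rfl fun l hl => ?_
          have : (l : ℕ) < t := (Finset.mem_filter.1 hl).2
          rw [if_pos (by omega)]
        · congr 1
          refine Finset.prod_congr rfl fun l hl => ?_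
          have : (t : ℕ) < l := (Finset.mem_filter.1 hl).2
          rw [if_neg (by omega)]
      rw [key (t + 1) (Or.inr rfl), key t (Or.inl rfl), if_pos (Nat.lt_succ_self _),
        if_neg (lt_irrefl _)]
      ring
    rw [← avg_sub, funext hdiff, avg_mul, abs_mul]
    have hq : |∏ l ∈ Finset.univ.filter (fun l => t < l), p l| ≤ 1 := by
      rw [abs_of_nonneg (Finset.prod_nonneg fun l _ => (P.p_mem (μ := μ) (m l)).1)]
      exact Finset.prod_le_one (fun l _ => (P.p_mem (μ := μ) (m l)).1)
        fun l _ => (P.p_mem (μ := μ) (m l)).2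
    calc _ ≤ 1 * η := mul_le_mul hq (hgood t) (abs_nonneg _) zero_le_one
      _ = η := one_mul η
  have h0 : avg (B 0) N = ∏ l, p l := by
    have : B 0 = fun _ => ∏ l, p l := funext fun v => by simp [hB]
    rw [this]
    exact avg_const h1 _
  have hr : B (r + 1) = fun v => ∏ l, P.φ (m l) (x (i l) v) := funext fun v => by
    simp only [hB]
    exact Finset.prod_congr rfl fun l _ => if_pos l.2
  have hsum : avg (B (r + 1)) N - avg (B 0) N =
      ∑ t ∈ Finset.range (r + 1), (avg (B (t + 1)) N - avg (B t) N) :=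
    (Finset.sum_range_sub (fun t => avg (B t) N) (r + 1)).symm
  rw [← hr, ← h0, hsum]
  calc |∑ t ∈ Finset.range (r + 1), (avg (B (t + 1)) N - avg (B t) N)|
      ≤ ∑ t ∈ Finset.range (r + 1), |avg (B (t + 1)) N - avg (B t) N| :=
        Finset.abs_sum_le_sum_abs _ _
    _ ≤ ∑ _t ∈ Finset.range (r + 1), η := Finset.sum_le_sum fun t ht =>
        hstep ⟨t, Finset.mem_range.1 ht⟩
    _ = (r + 1) * η := by
        rw [Finset.sum_const, Finset.card_range, nsmul_eq_mul]
        push_cast
        ring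

end

/-! ### approximation of Lipschitz functions -/

section
variable {K : Type} [Field K] [NumberField K]
variable {X : Type} [MetricSpace X] [CompactSpace X] [MeasurableSpace X] [BorelSpace X]
  {μ : Measure X} [IsProbabilityMeasure μ]

omit [CompactSpace X] [MeasurableSpace X] [BorelSpace X] in
theorem Partition.sum_prod {δ : ℝ} (P : Partition X δ) {r : ℕ} (z : Fin r → X) :
    ∑ m : Fin r → P.ι, ∏ l, P.φ (m l) (z l) = 1 := by
  classical
  have h := Finset.prod_univ_sum (fun _ : Fin r => (Finset.univ : Finset P.ι))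
    (fun l m => P.φ m (z l))
  rw [Fintype.piFinset_univ] at h
  rw [← h]
  simp [P.sum_eq]

omit [CompactSpace X] [MeasurableSpace X] [BorelSpace X] in
theorem Partition.approx {δ : ℝ} (hδ : 0 ≤ δ) (P : Partition X δ) {r : ℕ}
    {f : (Fin r → X) → ℝ} (hf : LipschitzWith 1 f) (c₀ : ℝ) (z : Fin r → X) :
    |f z - c₀ - ∑ m : Fin r → P.ι, (f (fun l => P.c (m l)) - c₀) * ∏ l, P.φ (m l) (z l)| ≤ δ := by
  have e : f z - c₀ - ∑ m : Fin r → P.ι, (f (fun l => P.c (m l)) - c₀) * ∏ l, P.φ (m l) (z l) =
      ∑ m : Fin r → P.ι, (f z - f (fun l => P.c (m l))) * ∏ l, P.φ (m l) (z l) := by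
    have h1 : f z - c₀ = ∑ m : Fin r → P.ι, (f z - c₀) * ∏ l, P.φ (m l) (z l) := by
      rw [← Finset.mul_sum, P.sum_prod, mul_one]
    rw [h1, ← Finset.sum_sub_distrib]
    exact Finset.sum_congr rfl fun m _ => by ring
  rw [e]
  calc |∑ m : Fin r → P.ι, (f z - f (fun l => P.c (m l))) * ∏ l, P.φ (m l) (z l)|
      ≤ ∑ m : Fin r → P.ι, |(f z - f (fun l => P.c (m l))) * ∏ l, P.φ (m l) (z l)| :=
        Finset.abs_sum_le_sum_abs _ _
    _ ≤ ∑ m : Fin r → P.ι, δ * ∏ l, P.φ (m l) (z l) := by
        refine Finset.sum_le_sum fun m _ => ?_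
        have h0 : 0 ≤ ∏ l, P.φ (m l) (z l) := Finset.prod_nonneg fun l _ => P.nonneg _ _
        rw [abs_mul, abs_of_nonneg h0]
        by_cases hz : ∏ l, P.φ (m l) (z l) = 0
        · rw [hz, mul_zero, mul_zero]
        · refine mul_le_mul_of_nonneg_right ?_ h0
          have h1 : dist z (fun l => P.c (m l)) ≤ δ := by
            rw [dist_pi_le_iff hδ]
            intro l
            exact P.supp (m l) (z l) (Finset.prod_ne_zero_iff.1 hz l (Finset.mem_univ l))
          have h2 := hf.dist_le_mul z (fun l => P.c (m l))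
          rw [Real.dist_eq] at h2
          simp only [NNReal.coe_one, one_mul] at h2
          exact h2.trans h1
    _ = δ := by rw [← Finset.mul_sum, P.sum_prod, mul_one]

theorem integrable_pi {r : ℕ} {f : (Fin r → X) → ℝ} (hf : Continuous f) :
    Integrable f (Measure.pi fun _ : Fin r => μ) := by
  obtain ⟨C, hC⟩ := (isCompact_univ (X := Fin r → X)).exists_bound_of_continuousOn
    hf.continuousOn
  exact Integrable.of_bound hf.aestronglyMeasurable C
    (Eventually.of_forall fun t => hC t (Set.mem_univ t))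

theorem close_of_good {δ : ℝ} (hδ : 0 ≤ δ) (P : Partition X δ) {r N : ℕ}
    {y : HeightOneSpectrum (𝓞 K) → Fin r → X}
    (h1 : avg (fun _ : HeightOneSpectrum (𝓞 K) => (1 : ℝ)) N = 1) {D : ℝ}
    (hD : ∀ s t : X, dist s t ≤ D) (hD0 : 0 ≤ D) {κ : ℝ}
    (hgood : ∀ m : Fin r → P.ι, |avg (fun v => ∏ l, P.φ (m l) (y v l)) N -
      ∏ l, ∫ s, P.φ (m l) s ∂μ| ≤ κ) :
    Close μ y (2 * δ + (Fintype.card (Fin r → P.ι) : ℝ) * (D * κ)) N := by
  intro f hf
  obtain ⟨v₀⟩ := exists_prime (K := K)
  set c₀ := f (y v₀) with hc₀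
  set g : (Fin r → X) → ℝ := fun z =>
    ∑ m : Fin r → P.ι, (f (fun l => P.c (m l)) - c₀) * ∏ l, P.φ (m l) (z l) with hg
  have happ : ∀ z, |f z - c₀ - g z| ≤ δ := P.approx hδ hf c₀
  have hgc : Continuous g := by
    refine continuous_finsetSum _ fun m _ => continuous_const.mul ?_
    exact continuous_finsetProd _ fun l _ => (P.cont (m l)).comp (continuous_apply l)
  have hfc : Continuous f := hf.continuous
  have ha : avg (fun v => f (y v)) N = avg (fun v => f (y v) - c₀ - g (y v)) N + c₀ +
      avg (fun v => g (y v)) N := by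
    rw [avg_sub, avg_sub, avg_const h1]
    ring
  have hi : ∫ z, f z ∂(Measure.pi fun _ : Fin r => μ) =
      ∫ z, (f z - c₀ - g z) ∂(Measure.pi fun _ : Fin r => μ) + c₀ +
      ∫ z, g z ∂(Measure.pi fun _ : Fin r => μ) := by
    have e1 : ∫ z, (f z - c₀ - g z) ∂(Measure.pi fun _ : Fin r => μ) =
        ∫ z, (f z - c₀) ∂(Measure.pi fun _ : Fin r => μ) -
          ∫ z, g z ∂(Measure.pi fun _ : Fin r => μ) :=
      integral_sub ((integrable_pi hfc).sub (integrable_const _)) (integrable_pi hgc)
    have e2 : ∫ z, (f z - c₀) ∂(Measure.pi fun _ : Fin r => μ) =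
        ∫ z, f z ∂(Measure.pi fun _ : Fin r => μ) -
          ∫ _z, c₀ ∂(Measure.pi fun _ : Fin r => μ) :=
      integral_sub (integrable_pi hfc) (integrable_const _)
    rw [e1, e2]
    simp
    ring
  have hga : avg (fun v => g (y v)) N = ∑ m : Fin r → P.ι, (f (fun l => P.c (m l)) - c₀) *
      avg (fun v => ∏ l, P.φ (m l) (y v l)) N := by
    rw [hg, avg_sum]
    exact Finset.sum_congr rfl fun m _ => avg_mul _ _ _
  have hgi : ∫ z, g z ∂(Measure.pi fun _ : Fin r => μ) =
      ∑ m : Fin r → P.ι, (f (fun l => P.c (m l)) - c₀) * ∏ l, ∫ s, P.φ (m l) s ∂μ := by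
    rw [hg, integral_finsetSum _ fun m _ => ?_]
    · refine Finset.sum_congr rfl fun m _ => ?_
      rw [integral_const_mul]
      congr 1
      exact integral_fintype_prod_eq_prod (𝕜 := ℝ) (fun l => P.φ (m l))
    · refine integrable_pi (continuous_const.mul ?_)
      exact continuous_finsetProd _ fun l _ => (P.cont (m l)).comp (continuous_apply l)
  have hb1 : |avg (fun v => f (y v) - c₀ - g (y v)) N| ≤ δ :=
    abs_avg_le h1 fun v => happ (y v)
  have hb2 : |∫ z, (f z - c₀ - g z) ∂(Measure.pi fun _ : Fin r => μ)| ≤ δ := by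
    have := norm_integral_le_of_norm_le_const (μ := Measure.pi fun _ : Fin r => μ)
      (f := fun z => f z - c₀ - g z) (C := δ) (Eventually.of_forall happ)
    simpa using this
  have hb3 : |avg (fun v => g (y v)) N - ∫ z, g z ∂(Measure.pi fun _ : Fin r => μ)| ≤
      (Fintype.card (Fin r → P.ι) : ℝ) * (D * κ) := by
    rw [hga, hgi, ← Finset.sum_sub_distrib]
    calc _ ≤ ∑ m : Fin r → P.ι, |(f (fun l => P.c (m l)) - c₀) *
          avg (fun v => ∏ l, P.φ (m l) (y v l)) N -
          (f (fun l => P.c (m l)) - c₀) * ∏ l, ∫ s, P.φ (m l) s ∂μ| :=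
          Finset.abs_sum_le_sum_abs _ _
      _ ≤ ∑ _m : Fin r → P.ι, D * κ := by
          refine Finset.sum_le_sum fun m _ => ?_
          rw [← mul_sub, abs_mul]
          refine mul_le_mul ?_ (hgood m) (abs_nonneg _) hD0
          have h2 := hf.dist_le_mul (fun l => P.c (m l)) (y v₀)
          rw [Real.dist_eq] at h2
          simp only [NNReal.coe_one, one_mul] at h2
          refine h2.trans ?_
          rw [dist_pi_le_iff hD0]
          exact fun l => hD _ _
      _ = (Fintype.card (Fin r → P.ι) : ℝ) * (D * κ) := by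
          rw [Finset.sum_const, nsmul_eq_mul, Finset.card_univ]
  rw [ha, hi]
  have e : avg (fun v => f (y v) - c₀ - g (y v)) N + c₀ + avg (fun v => g (y v)) N -
      (∫ z, (f z - c₀ - g z) ∂(Measure.pi fun _ : Fin r => μ) + c₀ +
      ∫ z, g z ∂(Measure.pi fun _ : Fin r => μ)) =
      avg (fun v => f (y v) - c₀ - g (y v)) N -
      ∫ z, (f z - c₀ - g z) ∂(Measure.pi fun _ : Fin r => μ) +
      (avg (fun v => g (y v)) N - ∫ z, g z ∂(Measure.pi fun _ : Fin r => μ)) := by ring
  rw [e, abs_le]
  have g1 := abs_le.1 hb1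
  have g2 := abs_le.1 hb2
  have g3 := abs_le.1 hb3
  exact ⟨by linarith [g1.1, g2.2, g3.1], by linarith [g1.2, g2.1, g3.2]⟩

/-- the decoupling of one member from an arbitrary bounded function -/
theorem decoupled_of_good {δ : ℝ} (P : Partition X δ) {N : ℕ}
    {F : HeightOneSpectrum (𝓞 K) → ℝ} (hF : ∀ v, |F v| ≤ 1)
    {y : HeightOneSpectrum (𝓞 K) → X}
    (h1 : avg (fun _ : HeightOneSpectrum (𝓞 K) => (1 : ℝ)) N = 1) {D : ℝ}
    (hD : ∀ s t : X, dist s t ≤ D) (hD0 : 0 ≤ D) {κ : ℝ}
    (hgood : ∀ m : P.ι, |avg (fun v => F v * (P.φ m (y v) - ∫ s, P.φ m s ∂μ)) N| ≤ κ)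
    {g : X → ℝ} (hg : LipschitzWith 1 g) :
    |avg (fun v => F v * g (y v)) N - avg F N * ∫ s, g s ∂μ| ≤
      2 * δ + (Fintype.card P.ι : ℝ) * (D * κ) := by
  obtain ⟨v₀⟩ := exists_prime (K := K)
  set c₀ := g (y v₀) with hc₀
  set k : X → ℝ := fun z => ∑ m, (g (P.c m) - c₀) * P.φ m z with hk
  have happ : ∀ z, |g z - c₀ - k z| ≤ δ := by
    intro z
    have e : g z - c₀ - k z = ∑ m, (g z - g (P.c m)) * P.φ m z := by
      have h1 : g z - c₀ = ∑ m, (g z - c₀) * P.φ m z := by
        rw [← Finset.mul_sum, P.sum_eq, mul_one]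
      rw [hk]
      simp only
      rw [h1, ← Finset.sum_sub_distrib]
      exact Finset.sum_congr rfl fun m _ => by ring
    rw [e]
    calc |∑ m, (g z - g (P.c m)) * P.φ m z| ≤ ∑ m, |(g z - g (P.c m)) * P.φ m z| :=
          Finset.abs_sum_le_sum_abs _ _
      _ ≤ ∑ m, δ * P.φ m z := by
          refine Finset.sum_le_sum fun m _ => ?_
          rw [abs_mul, abs_of_nonneg (P.nonneg m z)]
          by_cases hz : P.φ m z = 0
          · rw [hz, mul_zero, mul_zero]
          · refine mul_le_mul_of_nonneg_right ?_ (P.nonneg m z)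
            have h2 := hg.dist_le_mul z (P.c m)
            rw [Real.dist_eq] at h2
            simp only [NNReal.coe_one, one_mul] at h2
            exact h2.trans (P.supp m z hz)
      _ = δ := by rw [← Finset.mul_sum, P.sum_eq, mul_one]
  have hkc : Continuous k := continuous_finsetSum _ fun m _ => continuous_const.mul (P.cont m)
  have hi : ∫ z, g z ∂μ = ∫ z, (g z - c₀ - k z) ∂μ + c₀ + ∫ z, k z ∂μ := by
    have e1 : ∫ z, (g z - c₀ - k z) ∂μ = ∫ z, (g z - c₀) ∂μ - ∫ z, k z ∂μ :=
      integral_sub ((integrable_cont hg.continuous).sub (integrable_const _))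
        (integrable_cont hkc)
    have e2 : ∫ z, (g z - c₀) ∂μ = ∫ z, g z ∂μ - ∫ _z, c₀ ∂μ :=
      integral_sub (integrable_cont hg.continuous) (integrable_const _)
    rw [e1, e2]
    simp
    ring
  have hki : ∫ z, k z ∂μ = ∑ m, (g (P.c m) - c₀) * ∫ s, P.φ m s ∂μ := by
    rw [hk, integral_finsetSum _ fun m _ => (integrable_cont (P.cont m)).const_mul _]
    exact Finset.sum_congr rfl fun m _ => integral_const_mul _ _
  have ha : avg (fun v => F v * g (y v)) N = avg (fun v => F v * (g (y v) - c₀ - k (y v))) N +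
      c₀ * avg F N + avg (fun v => F v * k (y v)) N := by
    rw [← avg_mul, ← avg_add, ← avg_add]
    congr 1
    funext v
    ring
  have hka : avg (fun v => F v * k (y v)) N - avg F N * ∫ z, k z ∂μ =
      ∑ m, (g (P.c m) - c₀) * avg (fun v => F v * (P.φ m (y v) - ∫ s, P.φ m s ∂μ)) N := by
    have e1 : (fun v => F v * k (y v)) = fun v => ∑ m, (g (P.c m) - c₀) *
        (F v * P.φ m (y v)) := funext fun v => by
      rw [hk]
      simp only
      rw [Finset.mul_sum]
      exact Finset.sum_congr rfl fun m _ => by ring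
    rw [e1, avg_sum, hki, Finset.mul_sum, ← Finset.sum_sub_distrib]
    refine Finset.sum_congr rfl fun m _ => ?_
    have e2 : (fun v => F v * (P.φ m (y v) - ∫ s, P.φ m s ∂μ)) =
        fun v => F v * P.φ m (y v) - (∫ s, P.φ m s ∂μ) * F v := funext fun v => by ring
    rw [e2, avg_sub, avg_mul, avg_mul]
    ring
  have hb1 : |avg (fun v => F v * (g (y v) - c₀ - k (y v))) N| ≤ δ :=
    abs_avg_le h1 fun v => by
      rw [abs_mul]
      calc |F v| * |g (y v) - c₀ - k (y v)| ≤ 1 * δ :=
            mul_le_mul (hF v) (happ _) (abs_nonneg _) zero_le_one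
        _ = δ := one_mul δ
  have hb2 : |∫ z, (g z - c₀ - k z) ∂μ| ≤ δ := by
    have := norm_integral_le_of_norm_le_const (μ := μ)
      (f := fun z => g z - c₀ - k z) (C := δ) (Eventually.of_forall happ)
    simpa using this
  have hb3 : |avg (fun v => F v * k (y v)) N - avg F N * ∫ z, k z ∂μ| ≤
      (Fintype.card P.ι : ℝ) * (D * κ) := by
    rw [hka]
    calc _ ≤ ∑ m, |(g (P.c m) - c₀) * avg (fun v => F v * (P.φ m (y v) - ∫ s, P.φ m s ∂μ)) N| :=
          Finset.abs_sum_le_sum_abs _ _
      _ ≤ ∑ _m : P.ι, D * κ := by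
          refine Finset.sum_le_sum fun m _ => ?_
          rw [abs_mul]
          refine mul_le_mul ?_ (hgood m) (abs_nonneg _) hD0
          have h2 := hg.dist_le_mul (P.c m) (y v₀)
          rw [Real.dist_eq] at h2
          simp only [NNReal.coe_one, one_mul] at h2
          exact h2.trans (hD _ _)
      _ = (Fintype.card P.ι : ℝ) * (D * κ) := by
          rw [Finset.sum_const, nsmul_eq_mul, Finset.card_univ]
  have hb4 : |avg F N| ≤ 1 := abs_avg_le h1 hF
  rw [ha, hi]
  have e : avg (fun v => F v * (g (y v) - c₀ - k (y v))) N + c₀ * avg F N +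
      avg (fun v => F v * k (y v)) N -
      avg F N * (∫ z, (g z - c₀ - k z) ∂μ + c₀ + ∫ z, k z ∂μ) =
      avg (fun v => F v * (g (y v) - c₀ - k (y v))) N - avg F N * ∫ z, (g z - c₀ - k z) ∂μ +
      (avg (fun v => F v * k (y v)) N - avg F N * ∫ z, k z ∂μ) := by ring
  have hb5 : |avg F N * ∫ z, (g z - c₀ - k z) ∂μ| ≤ δ := by
    rw [abs_mul]
    calc |avg F N| * |∫ z, (g z - c₀ - k z) ∂μ| ≤ 1 * δ :=
          mul_le_mul hb4 hb2 (abs_nonneg _) zero_le_one
      _ = δ := one_mul δ
  rw [e, abs_le]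
  have g1 := abs_le.1 hb1
  have g2 := abs_le.1 hb5
  have g3 := abs_le.1 hb3
  exact ⟨by linarith [g1.1, g2.2, g3.1], by linarith [g1.2, g2.1, g3.2]⟩

end

/-- For all compact metric spaces `X`, all `r` and `ε > 0` there is `B` such that for every number
field `K`, every probability measure `μ` on `X` and every finite family of functions
`x_k` (`k < n`) from the primes of `K` to `X` whose pairs are equidistributed for `μ ⊗ μ`, at each
large scale `N`:

* (decoupling) for every function `F` on the primes with `|F| ≤ 1`, all but at most `B` of the `x_k`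
  are independent of `F` up to `ε`: `|avg (F · g(x_k)) - avg F · ∫ g dμ| ≤ ε` for all `1`-Lipschitz `g`;
* all but at most `B n ^ r` of the `n ^ (r + 1)` tuples `(x_{k_0}, …, x_{k_r})` have a joint
  distribution within `ε` of `μ ⊗ ⋯ ⊗ μ`. -/
theorem result (X : Type) [MetricSpace X] [CompactSpace X] [MeasurableSpace X] [BorelSpace X]
    (r : ℕ) (ε : ℝ) (hε : 0 < ε) :
    ∃ B : ℕ, ∀ (K : Type) [Field K] [NumberField K] (μ : Measure X) [IsProbabilityMeasure μ]
      (n : ℕ) (x : Fin n → HeightOneSpectrum (𝓞 K) → X), PairsEquidistributed μ x →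
      ∀ᶠ N in atTop,
        (∀ F : HeightOneSpectrum (𝓞 K) → ℝ, (∀ v, |F v| ≤ 1) →
          {k : Fin n | ∃ g : X → ℝ, LipschitzWith 1 g ∧
            ε < |avg (fun v => F v * g (x k v)) N - avg F N * ∫ s, g s ∂μ|}.ncard ≤ B) ∧
        {k : Fin (r + 1) → Fin n | ¬ Close μ (fun v j => x (k j) v) ε N}.ncard ≤ B * n ^ r := by
  classical
  obtain ⟨P⟩ := exists_partition X (δ := ε / 8) (by positivity)
  set D := Metric.diam (Set.univ : Set X) with hDdef
  have hD : ∀ s t : X, dist s t ≤ D := fun s t =>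
    Metric.dist_le_diam_of_mem isCompact_univ.isBounded (Set.mem_univ s) (Set.mem_univ t)
  have hD0 : 0 ≤ D := Metric.diam_nonneg
  set C : ℝ := (Fintype.card P.ι : ℝ) + (Fintype.card (Fin (r + 1) → P.ι) : ℝ) * (r + 1) + 1
    with hC
  have hCpos : 0 < C := by positivity
  set η : ℝ := ε / (4 * (C * (D + 1))) with hη
  have hηpos : 0 < η := by positivity
  have hηval : C * ((D + 1) * η) = ε / 4 := by rw [hη]; field_simp
  have hsmall : ∀ c : ℝ, 0 ≤ c → c ≤ C → 2 * (ε / 8) + c * (D * η) ≤ ε := by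
    intro c hc hcC
    have h1 : c * (D * η) ≤ C * ((D + 1) * η) := by
      refine mul_le_mul hcC ?_ (by positivity) hCpos.le
      exact mul_le_mul_of_nonneg_right (by linarith) hηpos.le
    rw [hηval] at h1
    linarith
  set b := ⌊2 / η ^ 2⌋₊ with hb
  refine ⟨Fintype.card P.ι * b + (r + 1) * Fintype.card (Fin (r + 1) → P.ι) * b, ?_⟩
  intro K _ _ μ _ n x hx
  have hτ : (0 : ℝ) < 1 / (n + 1) := by positivity
  have hnτ : (n : ℝ) * (1 / (n + 1)) ≤ 1 := by
    rw [mul_one_div, div_le_one (by positivity)]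
    linarith
  have hort := (eventually_all (l := atTop)).2 fun m : P.ι => near_orth hx (P.cont m) hτ
  filter_upwards [hort, avg_one (K := K)] with N hN h1
  constructor
  · intro F hF
    have hsub : {k : Fin n | ∃ g : X → ℝ, LipschitzWith 1 g ∧
        ε < |avg (fun v => F v * g (x k v)) N - avg F N * ∫ s, g s ∂μ|} ⊆
        ((Finset.univ : Finset P.ι).biUnion fun m => Finset.univ.filter fun k : Fin n =>
          η < |avg (fun v => F v * (P.φ m (x k v) - ∫ s, P.φ m s ∂μ)) N| : Finset (Fin n)) := by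
      rintro k ⟨g, hg, hbad⟩
      by_contra hk
      simp only [Finset.coe_biUnion, Finset.mem_coe, Set.mem_iUnion, Finset.mem_univ,
        Finset.coe_filter, Set.mem_ofPred_eq, true_and, exists_prop, not_exists, not_lt] at hk
      have := decoupled_of_good P hF h1 hD hD0 (fun m => hk m) hg
      have h2 := hsmall (Fintype.card P.ι) (by positivity) (by rw [hC]; nlinarith [
        (Nat.cast_nonneg (Fintype.card (Fin (r + 1) → P.ι)) : (0:ℝ) ≤ _),
        (Nat.cast_nonneg r : (0:ℝ) ≤ r)])
      linarith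
    calc _ ≤ ((Finset.univ : Finset P.ι).biUnion fun m => Finset.univ.filter fun k : Fin n =>
          η < |avg (fun v => F v * (P.φ m (x k v) - ∫ s, P.φ m s ∂μ)) N|).card := by
          rw [← Set.ncard_coe_finset]
          exact Set.ncard_le_ncard hsub (Finset.finite_toSet _)
      _ ≤ ∑ _m : P.ι, b := by
          refine Finset.card_biUnion_le.trans (Finset.sum_le_sum fun m _ => ?_)
          exact card_large h1 hF (h := fun k v => P.φ m (x k v) - ∫ s, P.φ m s ∂μ)
            (fun k v => P.abs_sub_le m (x k v)) hτ.le hnτ (fun k l hkl => hN m k l hkl) hηpos _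
            (fun k hk => (Finset.mem_filter.1 hk).2)
      _ = Fintype.card P.ι * b := by rw [Finset.sum_const, smul_eq_mul, Finset.card_univ]
      _ ≤ _ := Nat.le_add_right _ _
  · have hsub : {k : Fin (r + 1) → Fin n | ¬ Close μ (fun v j => x (k j) v) ε N} ⊆
        ((Finset.univ : Finset (Fin (r + 1) × (Fin (r + 1) → P.ι))).biUnion fun q =>
          Finset.univ.filter fun k : Fin (r + 1) → Fin n =>
          η < |avg (fun v => F P x q.1 q.2 k v *
            (P.φ (q.2 q.1) (x (k q.1) v) - ∫ s, P.φ (q.2 q.1) s ∂μ)) N| :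
              Finset (Fin (r + 1) → Fin n)) := by
      intro k hbad
      by_contra hk
      simp only [Finset.coe_biUnion, Finset.mem_coe, Set.mem_iUnion, Finset.mem_univ,
        Finset.coe_filter, Set.mem_ofPred_eq, true_and, exists_prop, not_exists, not_lt] at hk
      apply hbad
      have h2 := close_of_good (μ := μ) (y := fun v j => x (k j) v) (κ := (r + 1) * η)
        (by positivity : (0 : ℝ) ≤ ε / 8) P h1 hD hD0
        (fun m => telescope P h1 m k fun t => hk (t, m))
      have h3 := hsmall ((Fintype.card (Fin (r + 1) → P.ι) : ℝ) * (r + 1)) (by positivity)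
        (by rw [hC]; nlinarith [(Nat.cast_nonneg (Fintype.card P.ι) : (0:ℝ) ≤ _)])
      intro f hf
      refine (h2 f hf).trans (le_trans (le_of_eq ?_) h3)
      ring
    calc _ ≤ ((Finset.univ : Finset (Fin (r + 1) × (Fin (r + 1) → P.ι))).biUnion fun q =>
          Finset.univ.filter fun k : Fin (r + 1) → Fin n =>
          η < |avg (fun v => F P x q.1 q.2 k v *
            (P.φ (q.2 q.1) (x (k q.1) v) - ∫ s, P.φ (q.2 q.1) s ∂μ)) N|).card := by
          rw [← Set.ncard_coe_finset]
          exact Set.ncard_le_ncard hsub (Finset.finite_toSet _)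
      _ ≤ ∑ _q : Fin (r + 1) × (Fin (r + 1) → P.ι), b * n ^ r := by
          refine Finset.card_biUnion_le.trans (Finset.sum_le_sum fun q _ => ?_)
          exact card_bad P hτ.le hnτ h1 (fun m k l hkl => hN m k l hkl) hηpos q.1 q.2 _
            (fun k hk => (Finset.mem_filter.1 hk).2)
      _ = (r + 1) * Fintype.card (Fin (r + 1) → P.ι) * b * n ^ r := by
          rw [Finset.sum_const, smul_eq_mul, Finset.card_univ, Fintype.card_prod,
            Fintype.card_fin]
          ring
      _ ≤ _ := Nat.mul_le_mul_right _ (Nat.le_add_left _ _)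

end Pool.Agent.Results.MP_c481b3_nt.AlmostAllProducts
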