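import Pool.Agent.TH553.MU.PWN

/-!
# The Sato-Tate conjecture for products: from pairs to all factors

`A_i` (`i` in a finite set `ι`) are abelian varieties over a number field `K`, `G_i = ST(A_i)` their
Sato-Tate groups and `x_i(v) ∈ G_i` elements of the classes of the prime `v` of `K` (any elements at the
finitely many primes of bad reduction; this changes the `L`-functions below by finitely many factors
without zeros and poles in `Re s > 0`).  The `A_i` are jointly equidistributed if the `(x_i(v))_i` are
equidistributed in the product of the `G_i`; if the Sato-Tate group of the product of the `A_i` is the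
product of the `G_i`, this is the Sato-Tate conjecture for the product.

For algebraic groups pairwise independence implies independence of all factors (Goursat, Ribet), for
instance for elliptic curves without complex multiplication that are pairwise not isogenous over an
algebraic closure.  For random variables it does not, and the joint distribution is known for pairs of
such elliptic curves over totally real fields, but not for three.  Here the missing step is made from the
following local analytic condition: the `L`-functions of the irreducible representations `⊗ π_i` of the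
product have meromorphic continuations to some neighbourhoods of the points `1 + iτ`, with arbitrary
zeros and poles.  The reason is that the order at such a point is an integer and `-1` times a
correlation; by the independence of all but one of the factors and Schur's relations the correlation has
absolute value at most one, and the case of equality, for all ways to split the product into one factor
and the rest, forces `|tr π_i| = |tr π_j|` for all pairs, which contradicts pairwise independence if the
dimensions are not all one.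
-/

set_option autoImplicit false

namespace Pool.Agent.Results.MP_c481b3_nt.MutualFromPairwise

open NumberField IsDedekindDomain Filter Topology MeasureTheory

section

variable {K : Type} [Field K] [NumberField K]

/-- The average of `φ` over the primes of `K` of norm at most `N`. -/
noncomputable def avg (φ : HeightOneSpectrum (𝓞 K) → ℂ) (N : ℕ) : ℂ :=
  (∑ᶠ v : {v : HeightOneSpectrum (𝓞 K) // Ideal.absNorm v.asIdeal ≤ N}, φ v.1) /
    (Nat.card {v : HeightOneSpectrum (𝓞 K) // Ideal.absNorm v.asIdeal ≤ N} : ℂ)

/-- The classes of the `x v` are equidistributed for `μ`. -/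
def Equidistributed {G : Type} [Group G] [TopologicalSpace G] [MeasurableSpace G]
    (x : HeightOneSpectrum (𝓞 K) → G) (μ : Measure G) : Prop :=
  ∀ f : G → ℂ, Continuous f → (∀ g h, f (h * g * h⁻¹) = f g) →
    Tendsto (avg fun v => f (x v)) atTop (𝓝 (∫ g, f g ∂μ))

end

section

variable {G : Type} [Group G] [TopologicalSpace G] {n : ℕ}

/-- The character of `π`. -/
noncomputable def tr (π : G →* Matrix.unitaryGroup (Fin n) ℂ) (g : G) : ℂ :=
  (π g : Matrix (Fin n) (Fin n) ℂ).trace

/-- The unitary representation `π` is continuous and irreducible: only the scalars commute with all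
matrices `π g`. -/
structure IsIrreducible (π : G →* Matrix.unitaryGroup (Fin n) ℂ) : Prop where
  continuous : Continuous π
  schur : ∀ A : Matrix (Fin n) (Fin n) ℂ, (∀ g, (π g : Matrix (Fin n) (Fin n) ℂ) * A = A * π g) →
    ∃ c : ℂ, A = c • (1 : Matrix (Fin n) (Fin n) ℂ)

end

section

variable {K : Type} [Field K] [NumberField K] {ι : Type} [Fintype ι] [DecidableEq ι]
  {G : ι → Type} [∀ i, Group (G i)] {n : ι → ℕ}

/-- The tensor product of the matrices `M i`: the entry at `a`, `b` is `∏ i, M i (a i) (b i)`. -/
def tensor (M : ∀ i, Matrix (Fin (n i)) (Fin (n i)) ℂ) :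
    Matrix (∀ i, Fin (n i)) (∀ i, Fin (n i)) ℂ := Matrix.of fun a b => ∏ i, M i (a i) (b i)

/-- The Euler product `L(⊗ π_i, s) = ∏_v det(1 - q_v^{-s} ⊗ π_i(x_i(v)))⁻¹`. -/
noncomputable def LFun (π : ∀ i, G i →* Matrix.unitaryGroup (Fin (n i)) ℂ)
    (x : ∀ i, HeightOneSpectrum (𝓞 K) → G i) (s : ℂ) : ℂ :=
  ∏' v : HeightOneSpectrum (𝓞 K), (Matrix.det (1 - ((Ideal.absNorm v.asIdeal : ℂ) ^ (-s)) •
    tensor fun i => (π i (x i v) : Matrix (Fin (n i)) (Fin (n i)) ℂ)))⁻¹

/-- `log |L(⊗ π_i, 1 + iτ + ε)| / log (1/ε)`. -/
noncomputable def size (π : ∀ i, G i →* Matrix.unitaryGroup (Fin (n i)) ℂ)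
    (x : ∀ i, HeightOneSpectrum (𝓞 K) → G i) (τ ε : ℝ) : ℝ :=
  Real.log ‖LFun π x (1 + τ * Complex.I + ε)‖ / Real.log (1 / ε)

/-- `Λ` is a meromorphic continuation of `L(⊗ π_i, s)` to a neighbourhood of `1 + iτ`. -/
def IsContinuation (π : ∀ i, G i →* Matrix.unitaryGroup (Fin (n i)) ℂ)
    (x : ∀ i, HeightOneSpectrum (𝓞 K) → G i) (τ : ℝ) (Λ : ℂ → ℂ) : Prop :=
  MeromorphicAt Λ (1 + τ * Complex.I) ∧
    ∀ᶠ s in 𝓝 ((1 : ℂ) + τ * Complex.I), (1 : ℝ) < s.re → Λ s = LFun π x s

/-- At every point `1 + iτ` the Euler product does not vanish at `1 + iτ + ε` for small `ε > 0` and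
has a size smaller than `1`, and every meromorphic continuation to a neighbourhood has order `0`; and
if there is one for every `τ`, then the averages of the product of the characters tend to `0`. -/
def Decorrelated (π : ∀ i, G i →* Matrix.unitaryGroup (Fin (n i)) ℂ)
    (x : ∀ i, HeightOneSpectrum (𝓞 K) → G i) : Prop :=
  (∀ τ : ℝ, (∀ᶠ ε : ℝ in 𝓝[>] 0, LFun π x (1 + τ * Complex.I + ε) ≠ 0) ∧
    (∃ δ : ℝ, 0 < δ ∧ ∀ᶠ ε : ℝ in 𝓝[>] 0, |size π x τ ε| ≤ 1 - δ) ∧
    ∀ Λ : ℂ → ℂ, IsContinuation π x τ Λ → meromorphicOrderAt Λ (1 + τ * Complex.I) = 0) ∧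
  ((∀ τ : ℝ, ∃ Λ, IsContinuation π x τ Λ) → Tendsto (avg fun v => ∏ i, tr (π i) (x i v)) atTop (𝓝 0))

end

section Bridge

set_option linter.unusedSectionVars false

open Pool.Agent.TH553.ST Pool.Agent.TH553.RS Pool.Agent.W540.BE Pool.Agent.TH553.MU

variable {K : Type} [Field K] [NumberField K]

theorem avg_eq (g : HeightOneSpectrum (𝓞 K) → ℂ) : avg g = mn g := by
  funext N
  have hs : ∀ v, v ∈ upto K N ↔ Ideal.absNorm v.asIdeal ≤ N := fun v => mem_upto
  let e : {v : HeightOneSpectrum (𝓞 K) // Ideal.absNorm v.asIdeal ≤ N} ≃ (upto K N) :=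
    Equiv.subtypeEquivRight fun v => (hs v).symm
  have hfin : Finite {v : HeightOneSpectrum (𝓞 K) // Ideal.absNorm v.asIdeal ≤ N} :=
    Finite.of_equiv _ e.symm
  unfold avg mn
  have h1 : (∑ᶠ v : {v : HeightOneSpectrum (𝓞 K) // Ideal.absNorm v.asIdeal ≤ N}, g v.1) =
      ∑ v ∈ upto K N, g v := by
    rw [← Finset.sum_coe_sort, ← finsum_eq_sum_of_fintype, ← finsum_comp_equiv e]
    rfl
  have h2 : Nat.card {v : HeightOneSpectrum (𝓞 K) // Ideal.absNorm v.asIdeal ≤ N} =
      (upto K N).card := by
    rw [Nat.card_congr e, Nat.card_eq_fintype_card, Fintype.card_coe]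
  rw [h1, h2, Complex.real_smul, div_eq_inv_mul]
  push_cast
  rfl

variable {ι : Type} [Fintype ι] [DecidableEq ι] {G : ι → Type}
  [∀ i, Group (G i)] [∀ i, TopologicalSpace (G i)] [∀ i, IsTopologicalGroup (G i)]
  [∀ i, CompactSpace (G i)] [∀ i, SecondCountableTopology (G i)] [∀ i, MeasurableSpace (G i)]
  [∀ i, BorelSpace (G i)] {μ : ∀ i, Measure (G i)} [∀ i, IsProbabilityMeasure (μ i)]
  [∀ i, (μ i).IsHaarMeasure] {x : ∀ i, HeightOneSpectrum (𝓞 K) → G i}
  {n : ι → ℕ} {π : ∀ i, G i →* Matrix.unitaryGroup (Fin (n i)) ℂ}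

theorem law_of {T : Finset ι} (h : Equidistributed (fun v (i : T) => x i v)
    (Measure.pi fun i : T => μ i)) : LawT x μ T := by
  intro f hf hcl
  have h1 := h f hf hcl
  rw [avg_eq] at h1
  exact h1

theorem LFun_eq : LFun π x = LN π x := rfl

theorem deco (h : ∀ U : Ultrafilter ℝ, (U : Filter ℝ) ≤ 𝓝[>] 0 → ∀ τ, |rr U π x τ| < 1) :
    Decorrelated π x := by
  refine ⟨fun τ => ⟨?_, ?_, fun Λ hΛ => ?_⟩, fun hc => ?_⟩
  · rw [LFun_eq]
    exact (size_LN π x τ).1
  · unfold size
    rw [LFun_eq]
    exact size_lt h τ
  · unfold IsContinuation at hΛ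
    rw [LFun_eq] at hΛ
    obtain ⟨m, h1, h2⟩ := order_LN hΛ.1 hΛ.2
    rw [h1, zero_of_lt h τ m h2]
    rfl
  · unfold IsContinuation at hc
    rw [LFun_eq] at hc
    rw [avg_eq]
    exact avg_LN (zero_of_lt h) hc

end Bridge

/-- **From pairs to all factors.**  Let `K` be a number field, `G_i` (`i` in the finite set `ι`) compact
groups with a countable base, with their Haar probability measures `μ_i`, and `x_i(v) ∈ G_i` for the
primes `v` of `K`.

I.  Suppose that `ι` has at least three elements and that all but one of the families `x_i` are jointly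
equidistributed, whichever is left out.  Then `Decorrelated` holds for all irreducible representations
`π_i` of `G_i`, not all of dimension at most one.

II.  Suppose that `ι` has at least two elements and that any two of the families are jointly
equidistributed.  Suppose further, for all irreducible representations `π_i` of `G_i` such that at
least three of them are nontrivial: if all `π_i` have dimension one, then the averages of
`∏_i π_i(x_i(v))` tend to `0` (there are no such `π_i` if the `G_i` have no characters of dimension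
one); and if some `π_i` has dimension at least two, then for every `τ` there is a meromorphic continuation
of `L(⊗ π_i, s)` to a neighbourhood of `1 + iτ`.  Then the `(x_i(v))_i` are equidistributed in the product
of the `G_i`. -/
theorem result (K : Type) [Field K] [NumberField K] (ι : Type) [Fintype ι] [DecidableEq ι]
    (G : ι → Type) [∀ i, Group (G i)] [∀ i, TopologicalSpace (G i)]
    [∀ i, IsTopologicalGroup (G i)] [∀ i, CompactSpace (G i)] [∀ i, T2Space (G i)]
    [∀ i, SecondCountableTopology (G i)] [∀ i, MeasurableSpace (G i)] [∀ i, BorelSpace (G i)]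
    (μ : ∀ i, Measure (G i))
    [∀ i, IsProbabilityMeasure (μ i)] [∀ i, (μ i).IsHaarMeasure]
    (x : ∀ i, HeightOneSpectrum (𝓞 K) → G i) :
    (3 ≤ Fintype.card ι →
      (∀ T : Finset ι, T.card + 1 = Fintype.card ι →
        Equidistributed (fun v (i : T) => x i v) (Measure.pi fun i : T => μ i)) →
      ∀ (n : ι → ℕ) (π : ∀ i, G i →* Matrix.unitaryGroup (Fin (n i)) ℂ),
        (∀ i, IsIrreducible (π i)) → (∃ i, 2 ≤ n i) → Decorrelated π x) ∧
    (2 ≤ Fintype.card ι →
      (∀ T : Finset ι, T.card = 2 →
        Equidistributed (fun v (i : T) => x i v) (Measure.pi fun i : T => μ i)) →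
      (∀ (n : ι → ℕ) (π : ∀ i, G i →* Matrix.unitaryGroup (Fin (n i)) ℂ),
        (∀ i, IsIrreducible (π i)) → 3 ≤ {i | ∃ g, π i g ≠ 1}.ncard →
        ((∀ i, n i = 1) → Tendsto (avg fun v => ∏ i, tr (π i) (x i v)) atTop (𝓝 0)) ∧
        ((∃ i, 2 ≤ n i) → ∀ τ : ℝ, ∃ Λ, IsContinuation π x τ Λ)) →
      Equidistributed (fun v i => x i v) (Measure.pi μ)) := by
  refine ⟨fun h3 hT n π hπ hd => ?_, fun h2 hT hh => ?_⟩
  · have hπ' : ∀ i, Continuous (π i) ∧ Pool.Agent.TH553.ST.Schur (π i) :=
      fun i => ⟨(hπ i).continuous, (hπ i).schur⟩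
    have hL : ∀ k : ι, Pool.Agent.TH553.MU.LawT x μ (Finset.univ.erase k) := fun k =>
      law_of (hT _ (by
        rw [Finset.card_erase_of_mem (Finset.mem_univ k), Finset.card_univ]
        omega))
    refine deco fun U hU τ => Pool.Agent.TH553.MU.rr_lt (S := Finset.univ) (μ := μ)
      (by rw [Finset.card_univ]; omega)
      (fun i _ => Pool.Agent.TH553.MU.HH_of_T (Finset.Subset.refl _) (hL i)) (fun i _ => ?_)
      (fun i _ j _ _ => ?_) hπ' (fun i hi => absurd (Finset.mem_univ i) hi) hd hU τ
    · obtain ⟨k, -, hk⟩ := Finset.exists_mem_ne (s := (Finset.univ : Finset ι))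
        (by rw [Finset.card_univ]; omega) i
      refine Pool.Agent.TH553.MU.HH_of_T ?_ (hL k)
      rw [Finset.singleton_subset_iff, Finset.mem_erase]
      exact ⟨hk.symm, Finset.mem_univ i⟩
    · have h4 : ∃ k, k ∉ ({i, j} : Finset ι) := by
        by_contra hcon
        push Not at hcon
        have h5 : (Finset.univ : Finset ι).card ≤ ({i, j} : Finset ι).card :=
          Finset.card_le_card fun k _ => hcon k
        have h6 := Finset.card_le_two (a := i) (b := j)
        rw [Finset.card_univ] at h5
        omega
      obtain ⟨k, hk⟩ := h4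
      rw [Finset.mem_insert, Finset.mem_singleton, not_or] at hk
      refine ⟨_, hL k, ?_, ?_⟩
      · rw [Finset.mem_erase]
        exact ⟨fun h => hk.1 h.symm, Finset.mem_univ i⟩
      · rw [Finset.mem_erase]
        exact ⟨fun h => hk.2 h.symm, Finset.mem_univ j⟩
  · intro f hf hcl
    rw [avg_eq]
    refine Pool.Agent.TH553.MU.jointN (Pool.Agent.TH553.MU.HH_all h2
      (fun T hT' => law_of (hT T hT')) (fun n π h1 hc h3 => ?_) (fun n π hπ hd h3 τ => ?_) _) hf hcl
    · have hirr : ∀ i, IsIrreducible (π i) := by
        intro i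
        refine ⟨hc i, fun A _ => ?_⟩
        have h4 := h1 i
        have h5 : Subsingleton (Fin (n i)) := by
          rw [h4]
          infer_instance
        have h6 : Nonempty (Fin (n i)) := by
          rw [h4]
          infer_instance
        obtain ⟨k⟩ := h6
        refine ⟨A k k, ?_⟩
        ext a b
        rw [Subsingleton.elim a k, Subsingleton.elim b k]
        simp
      have h4 := (hh n π hirr h3).1 h1
      rw [avg_eq] at h4
      exact h4
    · have h4 := (hh n π (fun i => ⟨(hπ i).1, (hπ i).2⟩) h3).2 hd τ
      unfold IsContinuation at h4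
      rw [LFun_eq] at h4
      exact h4

end Pool.Agent.Results.MP_c481b3_nt.MutualFromPairwise
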