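import Pool.Agent.W529.ST.LimU
import Pool.Agent.W529.ST.Uni

/-!
# One finite extension governs the Frobenius distributions over all extensions of bounded degree

`A` is an abelian variety of dimension `g` over a number field `K`, `X` the space of conjugacy classes of
`USp(2g)` (or of `ST(A)`, if `-1 ∈ ST(A)`), `σ` the multiplication by `-1` and `x_v ∈ X` the class of the
prime `v` of `K`, any point at the finitely many primes of bad reduction.  For a finite extension `F` of
`K` and `d ∈ 𝓞_F`, `d ≠ 0`, let `A_F^d` be the twist of `A_F` by the quadratic character of `F(√d)/F` and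
`c(F, d, w) ∈ X` the class of the prime `w` of `F` for `A_F^d`.  For all but finitely many `w` of residue
degree one over the prime `v` of `K` below, it is `x_v` if `d` is a square modulo `w` and `σ(x_v)`
otherwise.  The theorem uses nothing else about `x` and `c`.  The distributions of the Frobenius classes
are those along an ultrafilter `U` of sets of scales `N`, finer than `N → ∞`; any infinite set of scales
belongs to such a `U`.  The degree of the governing extension `M` is bounded in terms of `X`, the degree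
of `F` and `ε` only; for `X` the space of classes of `USp(2g)` the bound is the same for all abelian
varieties of dimension `g` over all number fields.
-/

set_option autoImplicit false

namespace Pool.Agent.Results.MP_c481b3_nt.OneExtensionGoverns

open NumberField IsDedekindDomain Filter Topology

/-- The average of `φ` over the primes of `F` of norm at most `N`. -/
noncomputable def avg {F : Type} [Field F] [NumberField F] (φ : HeightOneSpectrum (𝓞 F) → ℝ)
    (N : ℕ) : ℝ :=
  (∑ᶠ v : {v : HeightOneSpectrum (𝓞 F) // Ideal.absNorm v.asIdeal ≤ N}, φ v.1) /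
    (Nat.card {v : HeightOneSpectrum (𝓞 F) // Ideal.absNorm v.asIdeal ≤ N} : ℝ)

/-- The test functions: `1`-Lipschitz with values in `[-1, 1]`. -/
def IsTest {X : Type} [MetricSpace X] (f : X → ℝ) : Prop := LipschitzWith 1 f ∧ ∀ t, |f t| ≤ 1

/-- The limit along `U` of the averages of `f(y_w)` over the primes `w` of `F` of norm at most `N`. -/
noncomputable def lim (U : Ultrafilter ℕ) {F : Type} [Field F] [NumberField F] {X : Type}
    (y : HeightOneSpectrum (𝓞 F) → X) (f : X → ℝ) : ℝ :=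
  limUnder (U : Filter ℕ) (avg fun w => f (y w))

section
variable {K : Type} [Field K] [NumberField K]

/-- `c(F, d, ·)` are the points for the twist by `F(√d)/F` of the base change to `F` of the family
`x`: for all but finitely many primes `w` of `F` of residue degree one over the prime `v` of `K` below,
`c(F, d, w)` is `x_v` if `d` is a square modulo `w` and `σ(x_v)` otherwise. -/
def TwistFamily {X : Type} (σ : X → X) (x : HeightOneSpectrum (𝓞 K) → X)
    (c : ∀ (F : IntermediateField K (AlgebraicClosure K)) [NumberField F],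
      𝓞 F → HeightOneSpectrum (𝓞 F) → X) : Prop :=
  ∀ (F : IntermediateField K (AlgebraicClosure K)) [NumberField F] (d : 𝓞 F), d ≠ 0 →
    ∃ S : Finset (HeightOneSpectrum (𝓞 F)), ∀ w, w ∉ S → ∀ v : HeightOneSpectrum (𝓞 K),
      w.asIdeal.comap (algebraMap (𝓞 K) (𝓞 F)) = v.asIdeal →
      Ideal.absNorm w.asIdeal = Ideal.absNorm v.asIdeal →
      (IsSquare (Ideal.Quotient.mk w.asIdeal d) → c F d w = x v) ∧
      (¬ IsSquare (Ideal.Quotient.mk w.asIdeal d) → c F d w = σ (x v))

/-- `√d ∈ E`. -/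
def HasSqrt (E : IntermediateField K (AlgebraicClosure K))
    {F : IntermediateField K (AlgebraicClosure K)} (d : 𝓞 F) : Prop :=
  ∃ y ∈ E, y ^ 2 = ((d : F) : AlgebraicClosure K)

/-- `M` governs the distributions of the points `c(F, d, w)` for all `F` of degree at most `n` over `K`
and all `d`, up to `ε`.  With `F₀ = F ∩ M`, either `√d ∉ FM` and the limit distribution over `F` for the
twist by `d` is `ε`-close to the symmetrisation (under `σ`) of the one over `F₀` without twist; or the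
twist by `d` is that by some `e ∈ F₀` with `√e ∈ M`, and the limit distribution over `F` for the twist by
`d` is `ε`-close to the one over `F₀` for the twist by `e`. -/
def Governs {X : Type} [MetricSpace X] (σ : X → X)
    (c : ∀ (F : IntermediateField K (AlgebraicClosure K)) [NumberField F],
      𝓞 F → HeightOneSpectrum (𝓞 F) → X) (U : Ultrafilter ℕ) (n : ℕ) (ε : ℝ)
    (M : IntermediateField K (AlgebraicClosure K)) : Prop :=
  ∀ (F F₀ : IntermediateField K (AlgebraicClosure K)) [NumberField F] [NumberField F₀],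
    F₀ = F ⊓ M → Module.finrank K F ≤ n → ∀ d : 𝓞 F, d ≠ 0 →
    (¬ HasSqrt (F ⊔ M) d ∧ ∀ f : X → ℝ, IsTest f →
      |lim U (c F d) f - (lim U (c F₀ 1) f + lim U (fun w => σ (c F₀ 1 w)) f) / 2| < ε) ∨
    ∃ e : 𝓞 F₀, e ≠ 0 ∧ HasSqrt M e ∧
      (∃ u ∈ F, u ^ 2 = ((d : F) : AlgebraicClosure K) * ((e : F₀) : AlgebraicClosure K)) ∧
      ∀ f : X → ℝ, IsTest f → |lim U (c F d) f - lim U (c F₀ e) f| < ε

/-- There are `l ≤ b` pairs `(G_a, e_a)`, `G_a ⊆ M` and `e_a ∈ 𝓞_{G_a}` nonzero, such that for all `F` of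
degree at most `n` over `K` and all nonzero `d ∈ 𝓞_F` the limit distribution over `F` for the twist by
`d` is `ε`-close to that over some `G_a = F ∩ M` for the twist by `e_a`. -/
def Listed {X : Type} [MetricSpace X]
    (c : ∀ (F : IntermediateField K (AlgebraicClosure K)) [NumberField F],
      𝓞 F → HeightOneSpectrum (𝓞 F) → X) (U : Ultrafilter ℕ) (n : ℕ) (ε : ℝ)
    (M : IntermediateField K (AlgebraicClosure K)) (b : ℕ) : Prop :=
  ∃ (l : ℕ) (G : Fin l → IntermediateField K (AlgebraicClosure K)) (_ : ∀ a, NumberField (G a))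
    (e : ∀ a, 𝓞 (G a)), l ≤ b ∧ (∀ a, G a ≤ M ∧ e a ≠ 0) ∧
    ∀ (F : IntermediateField K (AlgebraicClosure K)) [NumberField F], Module.finrank K F ≤ n →
      ∀ d : 𝓞 F, d ≠ 0 → ∃ a, G a = F ⊓ M ∧
        ∀ f : X → ℝ, IsTest f → |lim U (c F d) f - lim U (c (G a) (e a)) f| < ε

end

open Pool.Agent.W529.ST Pool.Agent.W353.TP Pool.Agent.H341R2
open Pool.Agent.H921R2.TatePole (kerPrime below)

/-! ### The limits exist -/

theorem avg_abs_le {F : Type} [Field F] [NumberField F] (φ : HeightOneSpectrum (𝓞 F) → ℝ)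
    (hφ : ∀ v, |φ v| ≤ 1) (N : ℕ) : |avg φ N| ≤ 1 := by
  obtain ⟨t, _, _, hmean⟩ := mean_def (F := F) φ N
  have e : avg φ N = mean F φ N := rfl
  rw [e, hmean, abs_div, abs_of_nonneg (Nat.cast_nonneg _ : (0 : ℝ) ≤ (t.card : ℝ))]
  refine div_le_one_of_le₀ ?_ (Nat.cast_nonneg _)
  refine (Finset.abs_sum_le_sum_abs _ _).trans ?_
  refine (Finset.sum_le_sum fun v _ => hφ v).trans ?_
  rw [Finset.sum_const, nsmul_eq_mul, mul_one]

theorem tendsto_lim (U : Ultrafilter ℕ) {F : Type} [Field F] [NumberField F] {X : Type}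
    (y : HeightOneSpectrum (𝓞 F) → X) (f : X → ℝ) (hf : ∀ t, |f t| ≤ 1) :
    Tendsto (avg fun w => f (y w)) U (𝓝 (lim U y f)) := by
  have h1 : ((U.map (avg fun w => f (y w)) : Ultrafilter ℝ) : Filter ℝ) ≤
      𝓟 (Set.Icc (-1 : ℝ) 1) := by
    rw [le_principal_iff]
    change _ ∈ U.map _
    rw [Ultrafilter.mem_map]
    refine Filter.univ_mem' fun N => ?_
    exact abs_le.1 (avg_abs_le _ (fun w => hf _) N)
  obtain ⟨α, _, hα⟩ := isCompact_Icc.ultrafilter_le_nhds _ h1
  exact tendsto_nhds_limUnder ⟨α, hα⟩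

theorem lim_unique {U : Ultrafilter ℕ} {F : Type} [Field F] [NumberField F] {X : Type}
    {y : HeightOneSpectrum (𝓞 F) → X} {f : X → ℝ} {α : ℝ}
    (h : Tendsto (avg fun w => f (y w)) U (𝓝 α)) : lim U y f = α := h.limUnder_eq

/-! ### Changing the points -/

theorem mean_congr' {F : Type} [Field F] [NumberField F] {φ φ' : HeightOneSpectrum (𝓞 F) → ℝ}
    {B : ℝ} (hφ : ∀ v, |φ v| ≤ B) (hφ' : ∀ v, |φ' v| ≤ B) {m : ℤ} (hm : m ≠ 0)
    (h : ∀ p : Nat.Primes, ¬ ((p : ℕ) : ℤ) ∣ m → ∀ ψ : 𝓞 F →+* ZMod (p : ℕ),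
      φ (kerPrime p ψ).1.1 = φ' (kerPrime p ψ).1.1) :
    Tendsto (fun N => mean F φ N - mean F φ' N) atTop (𝓝 0) := by
  have h1 := mean_sub φ hφ
  have h2 := mean_sub φ' hφ'
  have h3 : NN fun p => (∑ ψ : 𝓞 F →+* ZMod (p : ℕ), φ (kerPrime p ψ).1.1) -
      ∑ ψ : 𝓞 F →+* ZMod (p : ℕ), φ' (kerPrime p ψ).1.1 :=
    NN.of_dvd hm fun p hp => by
      rw [Finset.sum_congr rfl fun ψ _ => h p hp ψ, sub_self]
  have h4 := (h1.sub h2).add h3
  rw [sub_zero, add_zero] at h4
  refine h4.congr fun N => ?_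
  rw [Av_sub]
  ring

theorem mean_off {F : Type} [Field F] [NumberField F] {φ φ' : HeightOneSpectrum (𝓞 F) → ℝ}
    {B : ℝ} (hφ : ∀ v, |φ v| ≤ B) (hφ' : ∀ v, |φ' v| ≤ B) (S : Finset (HeightOneSpectrum (𝓞 F)))
    (h : ∀ w, w ∉ S → φ w = φ' w) :
    Tendsto (fun N => mean F φ N - mean F φ' N) atTop (𝓝 0) := by
  refine mean_congr' (m := ∏ w ∈ S, ((below w : ℕ) : ℤ)) hφ hφ' ?_ ?_
  · refine Finset.prod_ne_zero_iff.2 fun w _ => ?_
    exact_mod_cast (below w).2.ne_zero
  · intro p hp ψ
    refine h _ fun hw => hp ?_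
    have h1 : below (kerPrime p ψ).1.1 = p := (kerPrime p ψ).1.2
    have h2 := Finset.dvd_prod_of_mem (fun w => ((below w : ℕ) : ℤ)) hw
    simp only [h1] at h2
    exact h2

section
variable {K : Type} [Field K] [NumberField K]

theorem exists_family {X : Type} {σ : X → X} {x : HeightOneSpectrum (𝓞 K) → X}
    {c : ∀ (F : IntermediateField K (AlgebraicClosure K)) [NumberField F],
      𝓞 F → HeightOneSpectrum (𝓞 F) → X} (hc : TwistFamily σ x c) :
    ∃ c' : ∀ (F : IntermediateField K (AlgebraicClosure K)) [NumberField F],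
      𝓞 F → HeightOneSpectrum (𝓞 F) → X, IsFamily σ x c' ∧
      ∀ (F : IntermediateField K (AlgebraicClosure K)) [NumberField F] (d : 𝓞 F), d ≠ 0 →
        ∃ S : Finset (HeightOneSpectrum (𝓞 F)), ∀ w, w ∉ S → c' F d w = c F d w := by
  classical
  refine ⟨fun F _ d w => if h : ∃ v : HeightOneSpectrum (𝓞 K),
      w.asIdeal.comap (algebraMap (𝓞 K) (𝓞 F)) = v.asIdeal ∧
      Ideal.absNorm w.asIdeal = Ideal.absNorm v.asIdeal then
      (if IsSquare (Ideal.Quotient.mk w.asIdeal d) then x h.choose else σ (x h.choose))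
      else c F d w, ?_, ?_⟩
  · intro F _ d w v h1 h2 _
    have h : ∃ v : HeightOneSpectrum (𝓞 K),
      w.asIdeal.comap (algebraMap (𝓞 K) (𝓞 F)) = v.asIdeal ∧
      Ideal.absNorm w.asIdeal = Ideal.absNorm v.asIdeal := ⟨v, h1, h2⟩
    have h3 : h.choose = v := by
      apply HeightOneSpectrum.ext
      rw [← h.choose_spec.1, h1]
    constructor
    · intro h4
      simp only [dif_pos h, if_pos h4, h3]
    · intro h4
      simp only [dif_pos h, if_neg h4, h3]
  · intro F _ d hd
    obtain ⟨S, hS⟩ := hc F d hd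
    refine ⟨S, fun w hw => ?_⟩
    by_cases h : ∃ v : HeightOneSpectrum (𝓞 K),
      w.asIdeal.comap (algebraMap (𝓞 K) (𝓞 F)) = v.asIdeal ∧
      Ideal.absNorm w.asIdeal = Ideal.absNorm v.asIdeal
    · have h3 := hS w hw h.choose h.choose_spec.1 h.choose_spec.2
      by_cases h4 : IsSquare (Ideal.Quotient.mk w.asIdeal d)
      · simp only [dif_pos h, if_pos h4]
        exact (h3.1 h4).symm
      · simp only [dif_pos h, if_neg h4]
        exact (h3.2 h4).symm
    · simp only [dif_neg h]

/-- `f(c(F, d, w)) + f(σ(c(F, d, w)))` does not depend on `d`, on average. -/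
theorem sym_indep {X : Type} {σ : X → X} (hσ : ∀ y, σ (σ y) = y)
    {x : HeightOneSpectrum (𝓞 K) → X}
    {c : ∀ (F : IntermediateField K (AlgebraicClosure K)) [NumberField F],
      𝓞 F → HeightOneSpectrum (𝓞 F) → X} (hc : IsFamily σ x c)
    (F : IntermediateField K (AlgebraicClosure K)) [NumberField F] (d e : 𝓞 F) (hd : d ≠ 0)
    (he : e ≠ 0) (f : X → ℝ) (hf : ∀ t, |f t| ≤ 1) :
    Tendsto (fun N => mean F (fun w => 1 * f (c F d w) + 1 * f (σ (c F d w))) N -
      mean F (fun w => 1 * f (c F e w) + 1 * f (σ (c F e w))) N) atTop (𝓝 0) := by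
  have hb : ∀ y : X, |1 * f y + 1 * f (σ y)| ≤ 2 := by
    intro y
    have h1 := abs_le.1 (hf y)
    have h2 := abs_le.1 (hf (σ y))
    rw [abs_le]
    constructor <;> linarith [h1.1, h1.2, h2.1, h2.2]
  refine mean_congr' (m := N0 d * N0 e) (fun v => hb _) (fun v => hb _)
    (mul_ne_zero (N0_ne_zero hd) (N0_ne_zero he)) ?_
  intro p hp ψ
  have : Fact (p : ℕ).Prime := ⟨p.2⟩
  have h1 : ¬ ((p : ℕ) : ℤ) ∣ N0 d := fun h => hp (Dvd.dvd.mul_right h _)
  have h2 : ¬ ((p : ℕ) : ℤ) ∣ N0 e := fun h => hp (Dvd.dvd.mul_left h _)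
  have key : ∀ z : X, 1 * f z + 1 * f (σ z) = 1 * f (σ z) + 1 * f (σ (σ z)) := by
    intro z
    rw [hσ]
    ring
  rcases family_ker hc F d p h1 ψ with ⟨_, h3⟩ | ⟨_, h3⟩ <;>
    rcases family_ker hc F e p h2 ψ with ⟨_, h4⟩ | ⟨_, h4⟩ <;> rw [h3, h4]
  · exact key _
  · exact (key _).symm


/-- equality of limits -/
theorem lim_eq_of_sub {F : Type} [Field F] [NumberField F] {X : Type} {U : Ultrafilter ℕ}
    (hU : (U : Filter ℕ) ≤ atTop) {y y' : HeightOneSpectrum (𝓞 F) → X} {f : X → ℝ}
    (hf : ∀ t, |f t| ≤ 1)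
    (h : Tendsto (fun N => mean F (fun w => f (y w)) N - mean F (fun w => f (y' w)) N) atTop
      (𝓝 0)) : lim U y f = lim U y' f := by
  have h1 := (tendsto_lim U y f hf).sub (tendsto_lim U y' f hf)
  have h2 := tendsto_nhds_unique h1 (h.mono_left hU)
  linarith

theorem lim_comp {F : Type} [Field F] [NumberField F] {X : Type} {U : Ultrafilter ℕ}
    (y : HeightOneSpectrum (𝓞 F) → X) (σ : X → X) (f : X → ℝ) :
    lim U (fun w => σ (y w)) f = lim U y (fun t => f (σ t)) := rfl

theorem isTest_comp {X : Type} [MetricSpace X] {σ : X → X} (hσ : LipschitzWith 1 σ) {f : X → ℝ}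
    (hf : IsTest f) : IsTest fun t => f (σ t) := by
  refine ⟨?_, fun t => hf.2 _⟩
  have := hf.1.comp hσ
  rwa [one_mul] at this

/-- the sum of the limits of `f` and `f ∘ σ` does not depend on `d` -/
theorem sym_lim {X : Type} {σ : X → X} (hσ : ∀ y, σ (σ y) = y)
    {x : HeightOneSpectrum (𝓞 K) → X}
    {c : ∀ (F : IntermediateField K (AlgebraicClosure K)) [NumberField F],
      𝓞 F → HeightOneSpectrum (𝓞 F) → X} (hc : IsFamily σ x c) {U : Ultrafilter ℕ}
    (hU : (U : Filter ℕ) ≤ atTop)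
    (F : IntermediateField K (AlgebraicClosure K)) [NumberField F] (d e : 𝓞 F) (hd : d ≠ 0)
    (he : e ≠ 0) (f : X → ℝ) (hf : ∀ t, |f t| ≤ 1) :
    lim U (c F d) f + lim U (c F d) (fun t => f (σ t)) =
      lim U (c F e) f + lim U (c F e) (fun t => f (σ t)) := by
  have h0 := (sym_indep hσ hc F d e hd he f hf).mono_left hU
  have h1 := tendsto_lim U (c F d) f hf
  have h2 := tendsto_lim U (c F d) (fun t => f (σ t)) fun t => hf _
  have h3 := tendsto_lim U (c F e) f hf
  have h4 := tendsto_lim U (c F e) (fun t => f (σ t)) fun t => hf _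
  have h5 := (h1.add h2).sub (h3.add h4)
  have h6 : Tendsto (fun N => (avg (fun w => f (c F d w)) N + avg (fun w => f (σ (c F d w))) N) -
      (avg (fun w => f (c F e w)) N + avg (fun w => f (σ (c F e w))) N)) (U : Filter ℕ) (𝓝 0) := by
    refine h0.congr fun N => ?_
    rw [mean_lin, mean_lin]
    simp only [one_mul]
    rfl
  have h7 := tendsto_nhds_unique h5 h6
  linarith

end

/-- **One finite extension governs the Frobenius distributions of the base changes of bounded degree and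
of their quadratic twists.**  For every compact metric space `X`, `n` and `ε > 0` there is a number `B`
such that for all number fields `K`, all points `x_v ∈ X`, all involutions `σ` of `X` that do not increase
distances, all families `c(F, d, w)` of points for the twists of the base changes of `x` and all
ultrafilters `U` of scales there is a Galois extension `M` of `K` of degree at most `B` which governs the
limit distributions for all extensions `F` of `K` of degree at most `n` and all `d`, up to `ε`; up to `ε`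
they are all in a list of at most `4 ^ (B + 1)`.  (The first part says that the limits exist.) -/
theorem result :
    (∀ (X : Type) [MetricSpace X] (U : Ultrafilter ℕ) (F : Type) [Field F] [NumberField F]
      (y : HeightOneSpectrum (𝓞 F) → X) (f : X → ℝ), IsTest f →
      Tendsto (avg fun w => f (y w)) U (𝓝 (lim U y f))) ∧
    ∀ (X : Type) [MetricSpace X] [CompactSpace X] (n : ℕ) (ε : ℝ), 0 < ε →
      ∃ B : ℕ, ∀ (K : Type) [Field K] [NumberField K] (σ : X → X), LipschitzWith 1 σ →
        (∀ y, σ (σ y) = y) → ∀ (x : HeightOneSpectrum (𝓞 K) → X)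
        (c : ∀ (F : IntermediateField K (AlgebraicClosure K)) [NumberField F],
          𝓞 F → HeightOneSpectrum (𝓞 F) → X), TwistFamily σ x c →
        ∀ U : Ultrafilter ℕ, (U : Filter ℕ) ≤ atTop →
        ∃ M : IntermediateField K (AlgebraicClosure K),
          FiniteDimensional K M ∧ IsGalois K M ∧ Module.finrank K M ≤ B ∧
          Governs σ c U n ε M ∧ Listed c U n ε M (4 ^ (B + 1)) := by
  refine ⟨fun X _ U F _ _ y f hf => tendsto_lim U y f hf.2, ?_⟩
  intro X _ _ n ε hε
  obtain ⟨k, hk⟩ := exists_nat_gt (2 / ε)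
  have hk0 : (0 : ℝ) < k := lt_trans (by positivity) hk
  have hk1 : 1 ≤ k := by
    rcases Nat.eq_zero_or_pos k with h | h
    · rw [h] at hk0
      simp at hk0
    · exact h
  have hkε : (1 : ℝ) / k < ε / 2 := by
    rw [div_lt_iff₀ hε] at hk
    rw [div_lt_iff₀ hk0]
    linarith
  obtain ⟨B, hB⟩ := main_U X n k hk1
  refine ⟨B, ?_⟩
  intro K _ _ σ hσ1 hσ2 x c hc U hU
  obtain ⟨c', hc', hcc⟩ := exists_family hc
  obtain ⟨M, _, hM1, hM2, hM3, hM4, hA, hR⟩ := hB K σ hσ1 hσ2 x c' hc' ⊥ U hU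
  rw [IntermediateField.finrank_bot, mul_one] at hM4
  -- the limits for `c` and `c'` agree
  have hcl : ∀ (F : IntermediateField K (AlgebraicClosure K)) [NumberField F] (d : 𝓞 F), d ≠ 0 →
      ∀ f : X → ℝ, (∀ t, |f t| ≤ 1) → lim U (c F d) f = lim U (c' F d) f := by
    intro F _ d hd f hf
    obtain ⟨S, hS⟩ := hcc F d hd
    refine lim_eq_of_sub hU hf (mean_off (B := 1) (fun v => hf _) (fun v => hf _) S ?_)
    intro w hw
    rw [hS w hw]
  have hRel : ∀ (F F₀ : IntermediateField K (AlgebraicClosure K)) [NumberField F]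
      [NumberField F₀], F₀ = F ⊓ M → Module.finrank K F ≤ n → ∀ (d : 𝓞 F) (e : 𝓞 F₀), d ≠ 0 →
      e ≠ 0 → Related M d e → ∀ f : X → ℝ, IsTest f →
      |lim U (c F d) f - lim U (c F₀ e) f| < 1 / k := by
    intro F F₀ _ _ hF₀ hF d e hd he hde f hf
    rw [hcl F d hd f hf.2, hcl F₀ e he f hf.2]
    exact hR F F₀ hF₀ hF d e hd he hde f hf _ _ (tendsto_lim U (c' F d) f hf.2)
      (tendsto_lim U (c' F₀ e) f hf.2)
  refine ⟨M, hM1, hM2, hM4, ?_, ?_⟩
  · intro F F₀ _ _ hF₀ hF d hd
    by_cases hsq : HasSqrt (F ⊔ M) d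
    · right
      obtain ⟨e, he, hde⟩ := exists_related M F F₀ hF₀ d hd
      rcases hde with ⟨h1, h2⟩ | ⟨h1, _⟩
      · refine ⟨e, he, h2, h1, fun f hf => ?_⟩
        refine (hRel F F₀ hF₀ hF d e hd he (Or.inl ⟨h1, h2⟩) f hf).trans ?_
        linarith
      · obtain ⟨y, hy, hyd⟩ := hsq
        exact absurd hyd (h1 y hy)
    · left
      refine ⟨hsq, fun f hf => ?_⟩
      have hsq' : ∀ y ∈ F ⊔ M, y ^ 2 ≠ inj d := fun y hy h => hsq ⟨y, hy, h⟩
      have hf' : IsTest fun t => f (σ t) := isTest_comp hσ1 hf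
      have h1 := hA F d hF hd hsq' f hf _ _ (tendsto_lim U (c' F d) f hf.2)
        (tendsto_lim U (c' F d) (fun t => f (σ t)) hf'.2)
      rw [← hcl F d hd f hf.2, ← hcl F d hd _ hf'.2] at h1
      have h2 := sym_lim hσ2 hc' hU F d 1 hd one_ne_zero f hf.2
      rw [← hcl F d hd f hf.2, ← hcl F d hd _ hf'.2, ← hcl F 1 one_ne_zero f hf.2,
        ← hcl F 1 one_ne_zero _ hf'.2] at h2
      have hrel1 : Related M (1 : 𝓞 F) (1 : 𝓞 F₀) := by
        have e1 : inj (1 : 𝓞 F) = 1 := rfl
        have e2 : inj (1 : 𝓞 F₀) = 1 := rfl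
        refine Or.inl ⟨⟨1, one_mem _, ?_⟩, 1, one_mem _, ?_⟩
        · rw [e1, e2]
          ring
        · rw [e2]
          ring
      have h3 := hRel F F₀ hF₀ hF 1 1 one_ne_zero one_ne_zero hrel1 f hf
      have h4 := hRel F F₀ hF₀ hF 1 1 one_ne_zero one_ne_zero hrel1 _ hf'
      rw [lim_comp]
      rw [abs_lt] at h1 h3 h4 ⊢
      constructor <;> linarith [h1.1, h1.2, h3.1, h3.2, h4.1, h4.2]
  · obtain ⟨l, G, e, hl, hG, hex⟩ := list_C M
    refine ⟨l, G, fun a => (hG a).2.1, e, ?_, fun a => ⟨(hG a).1, (hG a).2.2⟩, ?_⟩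
    · refine hl.trans ?_
      have e1 : (4 : ℕ) ^ (B + 1) = 2 ^ (2 * (B + 1)) := by
        rw [pow_mul]
        norm_num
      rw [e1]
      exact Nat.pow_le_pow_right (by norm_num) (by omega)
    · intro F _ hF d hd
      obtain ⟨a, ha1, ha2⟩ := hex F d hd
      refine ⟨a, ha1, fun f hf => ?_⟩
      have := (hG a).2.1
      refine (hRel F (G a) ha1 hF d (e a) hd (hG a).2.2 ha2 f hf).trans ?_
      linarith

end Pool.Agent.Results.MP_c481b3_nt.OneExtensionGoverns
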