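import Pool.Agent.TH553.ST.PW2

/-!
# Pairs of abelian varieties that satisfy the Sato-Tate conjecture separately

`A₁` and `A₂` are abelian varieties over a number field `K`, `G₁ = ST(A₁)` and `G₂ = ST(A₂)` their
Sato-Tate groups and `x₁(v) ∈ G₁`, `x₂(v) ∈ G₂` elements of the classes of the prime `v` of `K` (any
elements at the finitely many primes of bad reduction; this changes the `L`-functions below by finitely
many factors without zeros and poles in `Re s > 0`).  Suppose that the Sato-Tate conjecture holds for `A₁`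
and for `A₂`.  The theorem is about the joint distribution of `x₁(v)` and `x₂(v)`, that is, about the
Sato-Tate conjecture for `A₁ × A₂`, and about the edge `Re s = 1` of the `L`-functions `L(π₁ ⊗ π₂, s)` of
the irreducible representations `π₁ ⊗ π₂` of `G₁ × G₂`.

The criterion of Serre asks for the continuation of `L(π₁ ⊗ π₂, s)` to `Re s ≥ 1` without zeros and poles,
and the method of Hadamard, de la Vallée Poussin and Deligne finds the zeros from the absence of poles for
all representations.  Here both are consequences of the Sato-Tate conjecture for `A₁` and `A₂` if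
the absolute values of the characters of `π₁` and `π₂` have different distributions, for instance if
the dimensions of `π₁` and `π₂` are different; a meromorphic continuation to a neighbourhood of the
point of the edge is enough, and only for this pair.  The reason is that the order at `1 + iτ` is `-1` times
the mean value of `tr π₁(x₁(v)) tr π₂(x₂(v)) q_v^{-iτ}`, and by Schur's relation both factors have length
one; an order that is not zero forces equality in the inequality of Cauchy and Schwarz.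

Remark (not used and not proved here): the set of all `g` in a compact group `G` with
`|tr π(g)|² > n² - δ` has a measure of the size `δ^{d/2}`, where `d` is the dimension of the image of
`π`.  So the laws are always different if `G₁` and `G₂` are connected and almost simple and of different
dimensions, for instance for an elliptic curve without complex multiplication (`SU(2)`) and an abelian
variety of dimension `g ≥ 2` with Sato-Tate group `USp(2g)`.
-/

set_option autoImplicit false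

namespace Pool.Agent.Results.MP_c481b3_nt.PairsFromMarginals

open NumberField IsDedekindDomain Filter Topology MeasureTheory
open scoped Kronecker ComplexConjugate

section

variable {K : Type} [Field K] [NumberField K]

/-- The average of `φ` over the primes of `K` of norm at most `N`. -/
noncomputable def avg (φ : HeightOneSpectrum (𝓞 K) → ℂ) (N : ℕ) : ℂ :=
  (∑ᶠ v : {v : HeightOneSpectrum (𝓞 K) // Ideal.absNorm v.asIdeal ≤ N}, φ v.1) /
    (Nat.card {v : HeightOneSpectrum (𝓞 K) // Ideal.absNorm v.asIdeal ≤ N} : ℂ)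

/-- The set `s` of primes of `K` has Dirichlet density zero. -/
def DensityZero (s : Set (HeightOneSpectrum (𝓞 K))) : Prop :=
  Tendsto (fun ε : ℝ => (∑' v : HeightOneSpectrum (𝓞 K), s.indicator (fun _ => (1 : ℝ)) v *
    (Ideal.absNorm v.asIdeal : ℝ) ^ (-(1 + ε))) / Real.log (1 / ε)) (𝓝[>] 0) (𝓝 0)

/-- The classes of the `x v` are equidistributed for `μ`. -/
def Equidistributed {G : Type} [Group G] [TopologicalSpace G] [MeasurableSpace G]
    (x : HeightOneSpectrum (𝓞 K) → G) (μ : Measure G) : Prop :=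
  ∀ f : G → ℂ, Continuous f → (∀ g h, f (h * g * h⁻¹) = f g) →
    Tendsto (avg fun v => f (x v)) atTop (𝓝 (∫ g, f g ∂μ))

end

section

variable {G : Type} [Group G] [TopologicalSpace G] [MeasurableSpace G] {n : ℕ}

/-- The character of `π`. -/
noncomputable def tr (π : G →* Matrix.unitaryGroup (Fin n) ℂ) (g : G) : ℂ :=
  (π g : Matrix (Fin n) (Fin n) ℂ).trace

/-- The unitary representation `π` is continuous and irreducible: only the scalars commute with all
matrices `π g`. -/
structure IsIrreducible (π : G →* Matrix.unitaryGroup (Fin n) ℂ) : Prop where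
  continuous : Continuous π
  schur : ∀ A : Matrix (Fin n) (Fin n) ℂ, (∀ g, (π g : Matrix (Fin n) (Fin n) ℂ) * A = A * π g) →
    ∃ c : ℂ, A = c • (1 : Matrix (Fin n) (Fin n) ℂ)

/-- The moment `∫ |tr π|^{2k}`. -/
noncomputable def moment (π : G →* Matrix.unitaryGroup (Fin n) ℂ) (μ : Measure G) (k : ℕ) : ℝ :=
  ∫ g, ‖tr π g‖ ^ (2 * k) ∂μ

variable {G' : Type} [Group G'] [TopologicalSpace G'] [MeasurableSpace G'] {n' : ℕ}

/-- The dimensions of `π` and `π'` or some moments of `|tr π|` and `|tr π'|` are different. -/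
def DifferentLaws (π : G →* Matrix.unitaryGroup (Fin n) ℂ) (μ : Measure G)
    (π' : G' →* Matrix.unitaryGroup (Fin n') ℂ) (μ' : Measure G') : Prop :=
  n ≠ n' ∨ ∃ k : ℕ, moment π μ k ≠ moment π' μ' k

variable {K : Type} [Field K] [NumberField K]

/-- The Euler product `L(π ⊗ π', s) = ∏_v det(1 - q_v^{-s} π(x_v) ⊗ π'(x'_v))⁻¹`. -/
noncomputable def LFun (π : G →* Matrix.unitaryGroup (Fin n) ℂ) (x : HeightOneSpectrum (𝓞 K) → G)
    (π' : G' →* Matrix.unitaryGroup (Fin n') ℂ) (x' : HeightOneSpectrum (𝓞 K) → G') (s : ℂ) : ℂ :=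
  ∏' v : HeightOneSpectrum (𝓞 K), (Matrix.det (1 - ((Ideal.absNorm v.asIdeal : ℂ) ^ (-s)) •
    ((π (x v) : Matrix (Fin n) (Fin n) ℂ) ⊗ₖ (π' (x' v) : Matrix (Fin n') (Fin n') ℂ))))⁻¹

/-- `log |L(π ⊗ π', 1 + iτ + ε)| / log (1/ε)`. -/
noncomputable def size (π : G →* Matrix.unitaryGroup (Fin n) ℂ) (x : HeightOneSpectrum (𝓞 K) → G)
    (π' : G' →* Matrix.unitaryGroup (Fin n') ℂ) (x' : HeightOneSpectrum (𝓞 K) → G') (τ ε : ℝ) :
    ℝ := Real.log ‖LFun π x π' x' (1 + τ * Complex.I + ε)‖ / Real.log (1 / ε)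

/-- `Λ` is a meromorphic continuation of `L(π ⊗ π', s)` to a neighbourhood of `1 + iτ`. -/
def IsContinuation (π : G →* Matrix.unitaryGroup (Fin n) ℂ) (x : HeightOneSpectrum (𝓞 K) → G)
    (π' : G' →* Matrix.unitaryGroup (Fin n') ℂ) (x' : HeightOneSpectrum (𝓞 K) → G') (τ : ℝ)
    (Λ : ℂ → ℂ) : Prop :=
  MeromorphicAt Λ (1 + τ * Complex.I) ∧
    ∀ᶠ s in 𝓝 ((1 : ℂ) + τ * Complex.I), (1 : ℝ) < s.re → Λ s = LFun π x π' x' s

/-- The edge for the pair `π`, `π'`.
1. For all `τ`, `L(π ⊗ π', 1 + iτ + ε) ≠ 0` for small `ε > 0`, and the upper limit of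
`|log |L(π ⊗ π', 1 + iτ + ε)| / log (1/ε)|` for `ε → 0` is at most `1`.
2. Suppose that the laws are different.  Then this upper limit is smaller than `1`, every meromorphic
continuation to a neighbourhood of `1 + iτ` has order `0` there, and if there is one for every `τ`,
then the averages of `tr π(x_v) tr π'(x'_v)` over the primes of norm at most `N` tend to `0`.
3. In general, every meromorphic continuation to a neighbourhood of `1 + iτ` has order `0`, `1` or `-1`
at this point.  If the order `m` is not zero, then `tr π(x_v) = -m q_v^{iτ} conj (tr π'(x'_v))` up to `δ`,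
for all `v` outside a set of density zero, for every `δ > 0`. -/
def EdgeLaw (π : G →* Matrix.unitaryGroup (Fin n) ℂ) (μ : Measure G)
    (x : HeightOneSpectrum (𝓞 K) → G) (π' : G' →* Matrix.unitaryGroup (Fin n') ℂ) (μ' : Measure G')
    (x' : HeightOneSpectrum (𝓞 K) → G') : Prop :=
  (∀ τ : ℝ, (∀ᶠ ε : ℝ in 𝓝[>] 0, LFun π x π' x' (1 + τ * Complex.I + ε) ≠ 0) ∧
    ∀ η : ℝ, 0 < η → ∀ᶠ ε : ℝ in 𝓝[>] 0, |size π x π' x' τ ε| ≤ 1 + η) ∧
  (DifferentLaws π μ π' μ' →
    (∀ τ : ℝ, ∃ δ : ℝ, 0 < δ ∧ ∀ᶠ ε : ℝ in 𝓝[>] 0, |size π x π' x' τ ε| ≤ 1 - δ) ∧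
    (∀ (τ : ℝ) (Λ : ℂ → ℂ), IsContinuation π x π' x' τ Λ →
      meromorphicOrderAt Λ (1 + τ * Complex.I) = 0) ∧
    ((∀ τ : ℝ, ∃ Λ, IsContinuation π x π' x' τ Λ) →
      Tendsto (avg fun v => tr π (x v) * tr π' (x' v)) atTop (𝓝 0))) ∧
  ∀ (τ : ℝ) (Λ : ℂ → ℂ), IsContinuation π x π' x' τ Λ →
    ∃ m : ℤ, meromorphicOrderAt Λ (1 + τ * Complex.I) = m ∧ |m| ≤ 1 ∧
      (m ≠ 0 → ∀ δ : ℝ, 0 < δ → DensityZero {v | δ < ‖tr π (x v) +
        m * ((Ideal.absNorm v.asIdeal : ℂ) ^ (τ * Complex.I) * conj (tr π' (x' v)))‖})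

end

section Bridge

set_option linter.unusedSectionVars false

open Pool.Agent.TH553.ST Pool.Agent.TH553.RS Pool.Agent.W540.BE

section

variable {K : Type} [Field K] [NumberField K]

theorem avg_eq (g : HeightOneSpectrum (𝓞 K) → ℂ) : avg g = mn g := by
  funext N
  have hs : ∀ v, v ∈ upto K N ↔ Ideal.absNorm v.asIdeal ≤ N := fun v => mem_upto
  let e : {v : HeightOneSpectrum (𝓞 K) // Ideal.absNorm v.asIdeal ≤ N} ≃ (upto K N) :=
    Equiv.subtypeEquivRight fun v => (hs v).symm
  have hfin : Finite {v : HeightOneSpectrum (𝓞 K) // Ideal.absNorm v.asIdeal ≤ N} :=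
    Finite.of_equiv _ e.symm
  unfold avg mn
  have h1 : (∑ᶠ v : {v : HeightOneSpectrum (𝓞 K) // Ideal.absNorm v.asIdeal ≤ N}, g v.1) =
      ∑ v ∈ upto K N, g v := by
    rw [← Finset.sum_coe_sort, ← finsum_eq_sum_of_fintype, ← finsum_comp_equiv e]
    rfl
  have h2 : Nat.card {v : HeightOneSpectrum (𝓞 K) // Ideal.absNorm v.asIdeal ≤ N} =
      (upto K N).card := by
    rw [Nat.card_congr e, Nat.card_eq_fintype_card, Fintype.card_coe]
  rw [h1, h2, Complex.real_smul, div_eq_inv_mul]
  push_cast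
  rfl

end

section

variable {K : Type} [Field K] [NumberField K]
variable {G : Type} [Group G] [TopologicalSpace G] [IsTopologicalGroup G] [CompactSpace G]
  [MeasurableSpace G] [BorelSpace G] {μ : Measure G} [IsProbabilityMeasure μ] [μ.IsHaarMeasure]
  {n : ℕ} {π : G →* Matrix.unitaryGroup (Fin n) ℂ}
variable {G' : Type} [Group G'] [TopologicalSpace G'] [IsTopologicalGroup G'] [CompactSpace G']
  [MeasurableSpace G'] [BorelSpace G'] {μ' : Measure G'} [IsProbabilityMeasure μ']
  [μ'.IsHaarMeasure] {n' : ℕ} {π' : G' →* Matrix.unitaryGroup (Fin n') ℂ}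
  {x : HeightOneSpectrum (𝓞 K) → G} {x' : HeightOneSpectrum (𝓞 K) → G'}

theorem law_of (h : Equidistributed x μ) : Law x μ := by
  intro f hf hcl
  have h1 := h (fun g => (f g : ℂ)) (Complex.continuous_ofReal.comp hf) fun g h => by rw [hcl]
  have h0 : ∫ g, (f g : ℂ) ∂μ = ((∫ g, f g ∂μ : ℝ) : ℂ) := integral_ofReal
  rw [avg_eq, h0] at h1
  have h2 := (Complex.continuous_re.tendsto _).comp h1
  refine h2.congr fun N => ?_
  simp only [Function.comp]
  rw [re_mn]
  rfl

theorem moment_eq (k : ℕ) : moment π μ k = ∫ g, (‖chi π g‖ ^ 2) ^ k ∂μ := by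
  unfold moment
  simp only [pow_mul]
  rfl

theorem not_same (hc : Continuous π) (hc' : Continuous π') (h : DifferentLaws π μ π' μ') :
    ¬ Same π μ π' μ' := by
  intro hs
  rcases h with h | ⟨k, h⟩
  · exact h (dim_eq hc hc' hs)
  · apply h
    rw [moment_eq, moment_eq]
    exact hs k

theorem size_eq (τ : ℝ) : size π x π' x' τ = sz π x π' x' τ := rfl

theorem df_eq (τ : ℝ) (m : ℤ) (v : HeightOneSpectrum (𝓞 K)) :
    ‖df (-(m : ℝ)) (tc π x 0) (tc π' x' τ) v‖ = ‖tr π (x v) +
        m * ((Ideal.absNorm v.asIdeal : ℂ) ^ (τ * Complex.I) * conj (tr π' (x' v)))‖ := by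
  unfold df tc
  congr 1
  rw [map_mul, conj_cpow_I (nm_pos v)]
  simp only [Complex.ofReal_zero, zero_mul, neg_zero, Complex.cpow_zero, mul_one]
  push_cast
  rw [neg_mul, sub_neg_eq_add]
  congr 2
  rw [mul_comm]
  rfl

theorem edge_law (hx : Law x μ) (hx' : Law x' μ') (hp : IsIrreducible π)
    (hp' : IsIrreducible π') : EdgeLaw π μ x π' μ' x' := by
  have hc := hp.continuous
  have hs : Schur π := hp.schur
  have hc' := hp'.continuous
  have hs' : Schur π' := hp'.schur
  refine ⟨fun τ => ⟨(size_LP π x π' x' τ).1, fun η hη => pair_le hx hx' hc hs hc' hs' τ hη⟩,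
    fun hd => ?_, ?_⟩
  · have hd' := not_same hc hc' hd
    refine ⟨fun τ => pair_lt hx hx' hc hs hc' hs' hd' τ, fun τ Λ hΛ => ?_, fun h => ?_⟩
    · obtain ⟨m, h1, h2⟩ := order_LP hΛ.1 hΛ.2
      rw [h1, pair_zero hx hx' hc hs hc' hs' hd' h2]
      rfl
    · rw [avg_eq]
      exact pair_avg hx hx' hc hs hc' hs' hd' h
  · intro τ Λ hΛ
    obtain ⟨m, h1, h2⟩ := order_LP hΛ.1 hΛ.2
    refine ⟨m, h1, ?_, fun hm δ hδ => ?_⟩
    · by_cases hm : m = 0
      · rw [hm]
        norm_num
      · exact (pair_rigid hx hx' hc hs hc' hs' h2 hm).1.le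
    · have h3 := (pair_rigid hx hx' hc hs hc' hs' h2 hm).2.2 δ hδ
      simp only [df_eq] at h3
      exact h3

end

end Bridge

/-- **Sato-Tate for `A₁` and for `A₂` and the edge of the `L`-functions of `A₁ × A₂`.**  Let `K` be a
number field, `G₁`, `G₂` compact groups with a countable base, with their Haar probability measures, and
`x₁(v) ∈ G₁`, `x₂(v) ∈ G₂` for the primes `v` of `K`, such that the classes of the `x₁(v)` are
equidistributed and those of the `x₂(v)` are equidistributed (nothing is assumed on the pairs).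

I.  For all irreducible representations `π₁` of `G₁` and `π₂` of `G₂` the edge law `EdgeLaw` holds.

II.  Suppose that all pairs `π₁`, `π₂` of nontrivial irreducible representations have different laws and
that for every such pair and every `τ` there is a meromorphic continuation of `L(π₁ ⊗ π₂, s)` to a
neighbourhood of `1 + iτ`.  Then the pairs `(x₁(v), x₂(v))` are equidistributed in `G₁ × G₂` (so that
the Sato-Tate conjecture holds for `A₁ × A₂`, with the group `G₁ × G₂`). -/
theorem result (K : Type) [Field K] [NumberField K]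
    (G₁ : Type) [Group G₁] [TopologicalSpace G₁] [IsTopologicalGroup G₁] [CompactSpace G₁]
    [T2Space G₁] [SecondCountableTopology G₁] [MeasurableSpace G₁] [BorelSpace G₁] (μ₁ : Measure G₁)
    [IsProbabilityMeasure μ₁] [μ₁.IsHaarMeasure]
    (G₂ : Type) [Group G₂] [TopologicalSpace G₂] [IsTopologicalGroup G₂] [CompactSpace G₂]
    [T2Space G₂] [SecondCountableTopology G₂] [MeasurableSpace G₂] [BorelSpace G₂] (μ₂ : Measure G₂)
    [IsProbabilityMeasure μ₂] [μ₂.IsHaarMeasure]
    (x₁ : HeightOneSpectrum (𝓞 K) → G₁) (x₂ : HeightOneSpectrum (𝓞 K) → G₂)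
    (h₁ : Equidistributed x₁ μ₁) (h₂ : Equidistributed x₂ μ₂) :
    (∀ (n₁ n₂ : ℕ) (π₁ : G₁ →* Matrix.unitaryGroup (Fin n₁) ℂ)
      (π₂ : G₂ →* Matrix.unitaryGroup (Fin n₂) ℂ), IsIrreducible π₁ → IsIrreducible π₂ →
        EdgeLaw π₁ μ₁ x₁ π₂ μ₂ x₂) ∧
    ((∀ (n₁ n₂ : ℕ) (π₁ : G₁ →* Matrix.unitaryGroup (Fin n₁) ℂ)
      (π₂ : G₂ →* Matrix.unitaryGroup (Fin n₂) ℂ), IsIrreducible π₁ → IsIrreducible π₂ →
        (∃ g, π₁ g ≠ 1) → (∃ g, π₂ g ≠ 1) →
        DifferentLaws π₁ μ₁ π₂ μ₂ ∧ ∀ τ : ℝ, ∃ Λ, IsContinuation π₁ x₁ π₂ x₂ τ Λ) →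
      Equidistributed (fun v => (x₁ v, x₂ v)) (μ₁.prod μ₂)) := by
  have hx := law_of h₁
  have hx' := law_of h₂
  refine ⟨fun n₁ n₂ π₁ π₂ hp hp' => edge_law hx hx' hp hp', fun h f hf hcl => ?_⟩
  rw [avg_eq]
  refine Pool.Agent.TH553.ST.joint hx hx' hf fun ε hε => ?_
  obtain ⟨k, m, m', ρ, ρ', a, h1, h2, h3⟩ := Pool.Agent.TH553.ST.class_dense2 hf
    (fun g g' k k' => hcl (g, g') (k, k')) hε
  refine ⟨k, m, m', ρ, ρ', a, h1, h2, fun i h4 h5 => ?_, h3⟩
  have h6 := h _ _ (ρ i) (ρ' i) ⟨(h1 i).1, (h1 i).2⟩ ⟨(h2 i).1, (h2 i).2⟩ h4 h5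
  exact ⟨not_same (h1 i).1 (h2 i).1 h6.1, h6.2⟩

end Pool.Agent.Results.MP_c481b3_nt.PairsFromMarginals
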